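import Mathlib

/-!
# Hansel's bound: at most `3 ^ (n.choose (n / 2))` down-sets of the Boolean lattice

The symmetric chain decomposition is given by a code `ch n A : List Bool`; two sets lie on the
same chain when they have the same code, and the number of `true`s in the code is the least size
of a set of the chain.
-/

namespace Pool.Agent.Helper691.Hansel

/-- The code of the chain of `A` in the symmetric chain decomposition of `2 ^ {0, …, n - 1}`. -/
def ch : ℕ → Finset ℕ → List Bool
  | 0, _ => []
  | n + 1, A =>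
    if n ∈ A ∧ (A.erase n).card + (ch n (A.erase n)).count true < n then
      true :: ch n (A.erase n)
    else false :: ch n (A.erase n)

/-- The number of `true`s of the code. -/
def sr (n : ℕ) (A : Finset ℕ) : ℕ := (ch n A).count true

theorem erase_sub {n : ℕ} {A : Finset ℕ} (hA : A ⊆ Finset.range (n + 1)) :
    A.erase n ⊆ Finset.range n := by
  intro x hx
  have h1 := Finset.mem_range.1 (hA (Finset.mem_of_mem_erase hx))
  have h2 := Finset.ne_of_mem_erase hx
  exact Finset.mem_range.2 (by omega)

theorem erase_self {n : ℕ} {A : Finset ℕ} (hA : A ⊆ Finset.range n) : A.erase n = A := by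
  refine Finset.erase_eq_of_notMem ?_
  intro h
  exact absurd (Finset.mem_range.1 (hA h)) (lt_irrefl _)

theorem notMem_self {n : ℕ} {A : Finset ℕ} (hA : A ⊆ Finset.range n) : n ∉ A := by
  intro h
  exact absurd (Finset.mem_range.1 (hA h)) (lt_irrefl _)

theorem card_erase_in {n : ℕ} {A : Finset ℕ} (h : n ∈ A) : A.card = (A.erase n).card + 1 :=
  (Finset.card_erase_add_one h).symm

theorem ch_pos {n : ℕ} {A : Finset ℕ} (h : n ∈ A)
    (h2 : (A.erase n).card + sr n (A.erase n) < n) :
    ch (n + 1) A = true :: ch n (A.erase n) := by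
  rw [ch, if_pos ⟨h, h2⟩]

theorem ch_neg {n : ℕ} {A : Finset ℕ}
    (h : ¬ (n ∈ A ∧ (A.erase n).card + sr n (A.erase n) < n)) :
    ch (n + 1) A = false :: ch n (A.erase n) := by
  rw [ch]
  exact if_neg h

theorem sr_pos {n : ℕ} {A : Finset ℕ} (h : n ∈ A)
    (h2 : (A.erase n).card + sr n (A.erase n) < n) :
    sr (n + 1) A = sr n (A.erase n) + 1 := by
  unfold sr
  rw [ch_pos h h2]
  simp

theorem sr_neg {n : ℕ} {A : Finset ℕ}
    (h : ¬ (n ∈ A ∧ (A.erase n).card + sr n (A.erase n) < n)) :
    sr (n + 1) A = sr n (A.erase n) := by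
  unfold sr
  rw [ch_neg h]
  simp

/-- Ranks of the sets of a chain. -/
theorem rank_bounds : ∀ (n : ℕ) (A : Finset ℕ), A ⊆ Finset.range n →
    sr n A ≤ A.card ∧ A.card + sr n A ≤ n
  | 0, A, hA => by
    have : A = ∅ := by
      rw [Finset.range_zero] at hA
      exact Finset.subset_empty.1 hA
    subst this
    simp [sr, ch]
  | n + 1, A, hA => by
    obtain ⟨h1, h2⟩ := rank_bounds n (A.erase n) (erase_sub hA)
    by_cases hc : n ∈ A ∧ (A.erase n).card + sr n (A.erase n) < n
    · rw [sr_pos hc.1 hc.2, card_erase_in hc.1]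
      omega
    · rw [sr_neg hc]
      by_cases hn : n ∈ A
      · rw [card_erase_in hn]
        omega
      · rw [Finset.erase_eq_of_notMem hn] at h1 h2 ⊢
        omega

/-- Sets on the same chain are comparable. -/
theorem chain_le : ∀ (n : ℕ) (A B : Finset ℕ), A ⊆ Finset.range n → B ⊆ Finset.range n →
    ch n A = ch n B → A.card ≤ B.card → A ⊆ B
  | 0, A, B, hA, _, _, _ => by
    rw [Finset.range_zero] at hA
    rw [Finset.subset_empty.1 hA]
    exact Finset.empty_subset _
  | n + 1, A, B, hA, hB, hch, hcard => by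
    have ih := chain_le n (A.erase n) (B.erase n) (erase_sub hA) (erase_sub hB)
    obtain ⟨a1, a2⟩ := rank_bounds n (A.erase n) (erase_sub hA)
    obtain ⟨b1, b2⟩ := rank_bounds n (B.erase n) (erase_sub hB)
    have finish : A.erase n ⊆ B.erase n → (n ∈ A → n ∈ B) → A ⊆ B := by
      intro h1 h2 x hx
      by_cases hxn : x = n
      · subst hxn; exact h2 hx
      · exact Finset.mem_of_mem_erase (h1 (Finset.mem_erase.2 ⟨hxn, hx⟩))
    by_cases hcA : n ∈ A ∧ (A.erase n).card + sr n (A.erase n) < n
    · by_cases hcB : n ∈ B ∧ (B.erase n).card + sr n (B.erase n) < n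
      · rw [ch_pos hcA.1 hcA.2, ch_pos hcB.1 hcB.2] at hch
        have h := List.tail_eq_of_cons_eq hch
        rw [card_erase_in hcA.1, card_erase_in hcB.1] at hcard
        exact finish (ih h (by omega)) (fun _ => hcB.1)
      · rw [ch_pos hcA.1 hcA.2, ch_neg hcB] at hch
        simp at hch
    · by_cases hcB : n ∈ B ∧ (B.erase n).card + sr n (B.erase n) < n
      · rw [ch_neg hcA, ch_pos hcB.1 hcB.2] at hch
        simp at hch
      · rw [ch_neg hcA, ch_neg hcB] at hch
        have h := List.tail_eq_of_cons_eq hch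
        have hs : sr n (A.erase n) = sr n (B.erase n) := by unfold sr; rw [h]
        by_cases hnA : n ∈ A
        · by_cases hnB : n ∈ B
          · rw [card_erase_in hnA, card_erase_in hnB] at hcard
            exact finish (ih h (by omega)) (fun _ => hnB)
          · exfalso
            rw [card_erase_in hnA] at hcard
            rw [Finset.erase_eq_of_notMem hnB] at b2 hs
            have : ¬ ((A.erase n).card + sr n (A.erase n) < n) := fun hh => hcA ⟨hnA, hh⟩
            omega
        · by_cases hnB : n ∈ B
          · have : ¬ ((B.erase n).card + sr n (B.erase n) < n) := fun hh => hcB ⟨hnB, hh⟩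
            exact finish (ih h (by omega)) (fun hh => absurd hh hnA)
          · rw [← Finset.erase_eq_of_notMem hnA, ← Finset.erase_eq_of_notMem hnB] at hcard
            exact finish (ih h hcard) (fun hh => absurd hh hnA)

/-- The chains are saturated and symmetric. -/
theorem chain_ex : ∀ (n : ℕ) (A : Finset ℕ), A ⊆ Finset.range n → ∀ r, sr n A ≤ r →
    r + sr n A ≤ n → ∃ B, B ⊆ Finset.range n ∧ ch n B = ch n A ∧ B.card = r
  | 0, A, hA, r, h1, h2 => by
    have : r = 0 := by omega
    subst this
    exact ⟨∅, by simp, by simp [ch], by simp⟩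
  | n + 1, A, hA, r, h1, h2 => by
    have ih := chain_ex n (A.erase n) (erase_sub hA)
    obtain ⟨a1, a2⟩ := rank_bounds n (A.erase n) (erase_sub hA)
    by_cases hcA : n ∈ A ∧ (A.erase n).card + sr n (A.erase n) < n
    · rw [sr_pos hcA.1 hcA.2] at h1 h2
      obtain ⟨B, hB1, hB2, hB3⟩ := ih (r - 1) (by omega) (by omega)
      have he : (insert n B).erase n = B := Finset.erase_insert (notMem_self hB1)
      refine ⟨insert n B, ?_, ?_, ?_⟩
      · intro x hx
        rcases Finset.mem_insert.1 hx with rfl | hx
        · simp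
        · have := Finset.mem_range.1 (hB1 hx)
          exact Finset.mem_range.2 (by omega)
      · have hs : sr n B = sr n (A.erase n) := by unfold sr; rw [hB2]
        rw [ch_pos hcA.1 hcA.2, ch_pos (Finset.mem_insert_self n B) (by rw [he]; omega), he, hB2]
      · rw [Finset.card_insert_of_notMem (notMem_self hB1), hB3]
        omega
    · rw [sr_neg hcA] at h1 h2
      by_cases hr : r + sr n (A.erase n) ≤ n
      · obtain ⟨B, hB1, hB2, hB3⟩ := ih r h1 hr
        refine ⟨B, ?_, ?_, hB3⟩
        · intro x hx
          have := Finset.mem_range.1 (hB1 hx)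
          exact Finset.mem_range.2 (by omega)
        · rw [ch_neg hcA, ch_neg (fun hh => notMem_self hB1 hh.1), erase_self hB1, hB2]
      · obtain ⟨B, hB1, hB2, hB3⟩ := ih (r - 1) (by omega) (by omega)
        have he : (insert n B).erase n = B := Finset.erase_insert (notMem_self hB1)
        have hs : sr n B = sr n (A.erase n) := by unfold sr; rw [hB2]
        refine ⟨insert n B, ?_, ?_, ?_⟩
        · intro x hx
          rcases Finset.mem_insert.1 hx with rfl | hx
          · simp
          · have := Finset.mem_range.1 (hB1 hx)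
            exact Finset.mem_range.2 (by omega)
        · rw [ch_neg hcA, ch_neg (fun hh => by rw [he] at hh; omega), he, hB2]
        · rw [Finset.card_insert_of_notMem (notMem_self hB1), hB3]
          omega

/-- The relative complement property: between two sets of a chain whose sizes differ by two there
is a set on a shorter chain. -/
theorem between : ∀ (n : ℕ) (A B : Finset ℕ), A ⊆ Finset.range n → B ⊆ Finset.range n →
    ch n A = ch n B → B.card = A.card + 2 →
    ∃ D, A ⊆ D ∧ D ⊆ B ∧ D.card = A.card + 1 ∧ sr n D = sr n A + 1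
  | 0, A, B, _, hB, _, hcard => by
    rw [Finset.range_zero] at hB
    rw [Finset.subset_empty.1 hB] at hcard
    simp at hcard
  | n + 1, A, B, hA, hB, hch, hcard => by
    have ih := between n (A.erase n) (B.erase n) (erase_sub hA) (erase_sub hB)
    obtain ⟨a1, a2⟩ := rank_bounds n (A.erase n) (erase_sub hA)
    obtain ⟨b1, b2⟩ := rank_bounds n (B.erase n) (erase_sub hB)
    by_cases hcA : n ∈ A ∧ (A.erase n).card + sr n (A.erase n) < n
    · by_cases hcB : n ∈ B ∧ (B.erase n).card + sr n (B.erase n) < n
      · rw [ch_pos hcA.1 hcA.2, ch_pos hcB.1 hcB.2] at hch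
        have h := List.tail_eq_of_cons_eq hch
        have hs : sr n (A.erase n) = sr n (B.erase n) := by unfold sr; rw [h]
        rw [card_erase_in hcA.1, card_erase_in hcB.1] at hcard
        obtain ⟨D, d1, d2, d3, d4⟩ := ih h (by omega)
        have hD : D ⊆ Finset.range n := d2.trans (erase_sub hB)
        have he : (insert n D).erase n = D := Finset.erase_insert (notMem_self hD)
        refine ⟨insert n D, ?_, ?_, ?_, ?_⟩
        · intro x hx
          by_cases hxn : x = n
          · subst hxn; simp
          · exact Finset.mem_insert_of_mem (d1 (Finset.mem_erase.2 ⟨hxn, hx⟩))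
        · intro x hx
          rcases Finset.mem_insert.1 hx with rfl | hx
          · exact hcB.1
          · exact Finset.mem_of_mem_erase (d2 hx)
        · rw [Finset.card_insert_of_notMem (notMem_self hD), d3, card_erase_in hcA.1]
        · rw [sr_pos (Finset.mem_insert_self n D) (by rw [he]; omega), he,
            sr_pos hcA.1 hcA.2, d4]
      · rw [ch_pos hcA.1 hcA.2, ch_neg hcB] at hch
        simp at hch
    · by_cases hcB : n ∈ B ∧ (B.erase n).card + sr n (B.erase n) < n
      · rw [ch_neg hcA, ch_pos hcB.1 hcB.2] at hch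
        simp at hch
      · rw [ch_neg hcA, ch_neg hcB] at hch
        have h := List.tail_eq_of_cons_eq hch
        have hs : sr n (A.erase n) = sr n (B.erase n) := by unfold sr; rw [h]
        have hnA : n ∉ A := by
          intro hnA
          have h3 : ¬ ((A.erase n).card + sr n (A.erase n) < n) := fun hh => hcA ⟨hnA, hh⟩
          rw [card_erase_in hnA] at hcard
          have h4 : B.card ≤ (B.erase n).card + 1 := by
            by_cases hnB : n ∈ B
            · rw [card_erase_in hnB]
            · rw [Finset.erase_eq_of_notMem hnB]; omega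
          omega
        by_cases hnB : n ∈ B
        · have h3 : ¬ ((B.erase n).card + sr n (B.erase n) < n) := fun hh => hcB ⟨hnB, hh⟩
          rw [card_erase_in hnB] at hcard
          have heA := Finset.erase_eq_of_notMem hnA
          rw [heA] at a1 a2 hs
          have hAr : A ⊆ Finset.range n := by rw [← heA]; exact erase_sub hA
          have hsub : A ⊆ B.erase n := by
            have := chain_le n (A.erase n) (B.erase n) (erase_sub hA) (erase_sub hB) h
              (by rw [heA]; omega)
            rwa [heA] at this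
          have he : (insert n A).erase n = A := Finset.erase_insert hnA
          refine ⟨insert n A, Finset.subset_insert _ _, ?_, ?_, ?_⟩
          · intro x hx
            rcases Finset.mem_insert.1 hx with rfl | hx
            · exact hnB
            · exact Finset.mem_of_mem_erase (hsub hx)
          · rw [Finset.card_insert_of_notMem hnA]
          · rw [sr_pos (Finset.mem_insert_self n A) (by rw [he]; omega), he, sr_neg hcA, heA]
        · have heA := Finset.erase_eq_of_notMem hnA
          have heB := Finset.erase_eq_of_notMem hnB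
          obtain ⟨D, d1, d2, d3, d4⟩ := ih h (by rw [heA, heB]; omega)
          rw [heA] at d1 d3 d4
          rw [heB] at d2
          have hD : D ⊆ Finset.range n := by
            have := erase_sub hB
            rw [heB] at this
            exact d2.trans this
          refine ⟨D, d1, d2, d3, ?_⟩
          rw [sr_neg (fun hh => notMem_self hD hh.1), erase_self hD, sr_neg hcA, heA, d4]

/-- The codes of the chains. -/
def codes (n : ℕ) : Finset (List Bool) := (Finset.range n).powerset.image (ch n)

theorem card_codes_le (n : ℕ) : (codes n).card ≤ n.choose (n / 2) := by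
  have h : codes n ⊆ ((Finset.range n).powersetCard (n / 2)).image (ch n) := by
    intro l hl
    obtain ⟨A, hA, rfl⟩ := Finset.mem_image.1 hl
    have hA' := Finset.mem_powerset.1 hA
    obtain ⟨a1, a2⟩ := rank_bounds n A hA'
    obtain ⟨B, hB1, hB2, hB3⟩ := chain_ex n A hA' (n / 2) (by omega) (by omega)
    exact Finset.mem_image.2 ⟨B, Finset.mem_powersetCard.2 ⟨hB1, hB3⟩, hB2⟩
  calc (codes n).card ≤ (((Finset.range n).powersetCard (n / 2)).image (ch n)).card :=
        Finset.card_le_card h
    _ ≤ ((Finset.range n).powersetCard (n / 2)).card := Finset.card_image_le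
    _ = n.choose (n / 2) := by simp

/-- The down-sets of the Boolean lattice `2 ^ {0, …, n - 1}`. -/
def downSets (n : ℕ) : Finset (Finset (Finset ℕ)) :=
  (Finset.range n).powerset.powerset.filter (fun 𝒜 => ∀ A ∈ 𝒜, ∀ B ∈ (Finset.range n).powerset,
    B ⊆ A → B ∈ 𝒜)

/-- The sets of the chain `l` that are not decided by the shorter chains. -/
def undec (n : ℕ) (𝒜 : Finset (Finset ℕ)) (l : List Bool) : Finset (Finset ℕ) :=
  (Finset.range n).powerset.filter (fun A => ch n A = l ∧
    ∀ D ∈ (Finset.range n).powerset, sr n A < sr n D →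
      (D ⊆ A → D ∈ 𝒜) ∧ (A ⊆ D → D ∉ 𝒜))

theorem undec_close {n : ℕ} {𝒜 : Finset (Finset ℕ)} {l : List Bool} {A B : Finset ℕ}
    (hA : A ∈ undec n 𝒜 l) (hB : B ∈ undec n 𝒜 l) : B.card ≤ A.card + 1 := by
  by_contra hlt
  push Not at hlt
  unfold undec at hA hB
  rw [Finset.mem_filter, Finset.mem_powerset] at hA hB
  obtain ⟨hA1, hA2, hA3⟩ := hA
  obtain ⟨hB1, hB2, hB3⟩ := hB
  have hsAB : sr n A = sr n B := by unfold sr; rw [hA2, hB2]
  obtain ⟨a1, a2⟩ := rank_bounds n A hA1
  obtain ⟨b1, b2⟩ := rank_bounds n B hB1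
  obtain ⟨C, hC1, hC2, hC3⟩ := chain_ex n A hA1 (A.card + 2) (by omega) (by omega)
  obtain ⟨D, d1, d2, d3, d4⟩ := between n A C hA1 hC1 hC2.symm hC3
  have hCB : C ⊆ B := chain_le n C B hC1 hB1 (by rw [hC2, hA2, hB2]) (by omega)
  have hDr : D ∈ (Finset.range n).powerset := Finset.mem_powerset.2 (d2.trans hC1)
  have h1 := (hA3 D hDr (by omega)).2 d1
  have h2 := (hB3 D hDr (by omega)).1 (d2.trans hCB)
  exact h1 h2

theorem undec_card_le (n : ℕ) (𝒜 : Finset (Finset ℕ)) (l : List Bool) :
    (undec n 𝒜 l).card ≤ 2 := by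
  classical
  rcases (undec n 𝒜 l).eq_empty_or_nonempty with h | h
  · rw [h]; simp
  · obtain ⟨A, hA, hmin⟩ := Finset.exists_min_image (undec n 𝒜 l) Finset.card h
    have hinj : Set.InjOn Finset.card (undec n 𝒜 l : Set (Finset ℕ)) := by
      intro X hX Y hY hXY
      have hX' := (Finset.mem_filter.1 (Finset.mem_coe.1 hX))
      have hY' := (Finset.mem_filter.1 (Finset.mem_coe.1 hY))
      have s1 := chain_le n X Y (Finset.mem_powerset.1 hX'.1) (Finset.mem_powerset.1 hY'.1)
        (by rw [hX'.2.1, hY'.2.1]) hXY.le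
      exact Finset.eq_of_subset_of_card_le s1 hXY.ge
    have hsub : (undec n 𝒜 l).image Finset.card ⊆ {A.card, A.card + 1} := by
      intro r hr
      obtain ⟨X, hX, rfl⟩ := Finset.mem_image.1 hr
      have h1 := hmin X hX
      have h2 := undec_close hA hX
      simp only [Finset.mem_insert, Finset.mem_singleton]
      omega
    rw [← Finset.card_image_of_injOn hinj]
    exact (Finset.card_le_card hsub).trans Finset.card_le_two

/-- The code of a down-set. -/
def dcode (n : ℕ) (𝒜 : Finset (Finset ℕ)) (l : List Bool) : ℕ :=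
  ((undec n 𝒜 l).filter (fun A => A ∈ 𝒜)).card

theorem dcode_lt (n : ℕ) (𝒜 : Finset (Finset ℕ)) (l : List Bool) : dcode n 𝒜 l < 3 := by
  have h1 : dcode n 𝒜 l ≤ (undec n 𝒜 l).card := Finset.card_filter_le _ _
  have h2 := undec_card_le n 𝒜 l
  omega

theorem step_subset {n : ℕ} {𝒜 ℬ : Finset (Finset ℕ)} (hA : 𝒜 ∈ downSets n)
    {l : List Bool} (hU : undec n 𝒜 l = undec n ℬ l)
    (hcode : dcode n 𝒜 l = dcode n ℬ l) (hB : ℬ ∈ downSets n) {X : Finset ℕ}
    (hX : X ∈ undec n 𝒜 l) (hXA : X ∈ 𝒜) : X ∈ ℬ := by
  by_contra hXB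
  have hd : ∀ Y ∈ (undec n ℬ l).filter (fun A => A ∈ ℬ),
      Y ∈ (undec n 𝒜 l).filter (fun A => A ∈ 𝒜) := by
    intro Y hY
    obtain ⟨hY1, hY2⟩ := Finset.mem_filter.1 hY
    rw [← hU] at hY1
    refine Finset.mem_filter.2 ⟨hY1, ?_⟩
    have hX' := Finset.mem_filter.1 hX
    have hY' := Finset.mem_filter.1 hY1
    have hch : ch n X = ch n Y := by rw [hX'.2.1, hY'.2.1]
    rcases le_total Y.card X.card with h | h
    · have s1 := chain_le n Y X (Finset.mem_powerset.1 hY'.1) (Finset.mem_powerset.1 hX'.1)
        hch.symm h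
      exact (Finset.mem_filter.1 hA).2 X hXA Y hY'.1 s1
    · have s1 := chain_le n X Y (Finset.mem_powerset.1 hX'.1) (Finset.mem_powerset.1 hY'.1)
        hch h
      exact absurd ((Finset.mem_filter.1 hB).2 Y hY2 X hX'.1 s1) hXB
  have hlt : ((undec n ℬ l).filter (fun A => A ∈ ℬ)).card <
      ((undec n 𝒜 l).filter (fun A => A ∈ 𝒜)).card := by
    refine Finset.card_lt_card (Finset.ssubset_iff_subset_ne.2 ⟨hd, ?_⟩)
    intro he
    have : X ∈ (undec n ℬ l).filter (fun A => A ∈ ℬ) := by
      rw [he]
      exact Finset.mem_filter.2 ⟨hX, hXA⟩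
    exact hXB (Finset.mem_filter.1 this).2
  unfold dcode at hcode
  omega

theorem dcode_inj {n : ℕ} {𝒜 ℬ : Finset (Finset ℕ)} (hA : 𝒜 ∈ downSets n)
    (hB : ℬ ∈ downSets n) (hcode : ∀ l ∈ codes n, dcode n 𝒜 l = dcode n ℬ l) :
    ∀ k : ℕ, ∀ X ∈ (Finset.range n).powerset, n ≤ sr n X + k → (X ∈ 𝒜 ↔ X ∈ ℬ) := by
  intro k
  induction k with
  | zero =>
    intro X hX hk
    obtain ⟨h1, h2⟩ := rank_bounds n X (Finset.mem_powerset.1 hX)
    have hn : n = 0 := by omega
    subst hn
    have hX0 : X = ∅ := by simpa using hX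
    subst hX0
    have hl : ch 0 ∅ ∈ codes 0 := Finset.mem_image.2 ⟨∅, hX, rfl⟩
    have hc := hcode _ hl
    have hu : ∀ 𝒞 : Finset (Finset ℕ), (∅ : Finset ℕ) ∈ undec 0 𝒞 (ch 0 ∅) := by
      intro 𝒞
      refine Finset.mem_filter.2 ⟨hX, rfl, ?_⟩
      intro D _ hlt
      exfalso
      simp [sr, ch] at hlt
    have hU : undec 0 𝒜 (ch 0 ∅) = undec 0 ℬ (ch 0 ∅) := by
      have key : ∀ 𝒞 : Finset (Finset ℕ), undec 0 𝒞 (ch 0 ∅) = {∅} := by
        intro 𝒞
        ext Y
        constructor
        · intro hY
          have := (Finset.mem_filter.1 hY).1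
          simpa using this
        · intro hY
          rw [Finset.mem_singleton.1 hY]
          exact hu 𝒞
      rw [key, key]
    constructor
    · intro h
      exact step_subset hA hU hc hB (hu 𝒜) h
    · intro h
      exact step_subset hB hU.symm hc.symm hA (hu ℬ) h
  | succ k ih =>
    intro X hX hk
    have hl : ch n X ∈ codes n := Finset.mem_image.2 ⟨X, hX, rfl⟩
    have hc := hcode _ hl
    have hU : undec n 𝒜 (ch n X) = undec n ℬ (ch n X) := by
      ext Y
      unfold undec
      simp only [Finset.mem_filter]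
      constructor
      · rintro ⟨hY1, hY2, hY3⟩
        refine ⟨hY1, hY2, ?_⟩
        intro D hD hlt
        have hs : sr n Y = sr n X := by unfold sr; rw [hY2]
        have := ih D hD (by omega)
        have h3 := hY3 D hD hlt
        rw [this] at h3
        exact h3
      · rintro ⟨hY1, hY2, hY3⟩
        refine ⟨hY1, hY2, ?_⟩
        intro D hD hlt
        have hs : sr n Y = sr n X := by unfold sr; rw [hY2]
        have := ih D hD (by omega)
        have h3 := hY3 D hD hlt
        rw [← this] at h3
        exact h3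
    by_cases hXU : X ∈ undec n 𝒜 (ch n X)
    · constructor
      · intro h
        exact step_subset hA hU hc hB hXU h
      · intro h
        exact step_subset hB hU.symm hc.symm hA (hU ▸ hXU) h
    · have hex : ∃ D ∈ (Finset.range n).powerset, sr n X < sr n D ∧
          ((D ⊆ X ∧ D ∉ 𝒜) ∨ (X ⊆ D ∧ D ∈ 𝒜)) := by
        by_contra hcon
        push Not at hcon
        refine hXU (Finset.mem_filter.2 ⟨hX, rfl, ?_⟩)
        intro D hD hlt
        have h3 := hcon D hD hlt
        exact ⟨h3.1, h3.2⟩
      obtain ⟨D, hD, hlt, h3⟩ := hex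
      have hDiff := ih D hD (by omega)
      rcases h3 with ⟨h4, h5⟩ | ⟨h4, h5⟩
      · constructor
        · intro h
          exact absurd ((Finset.mem_filter.1 hA).2 X h D hD h4) h5
        · intro h
          exact absurd (hDiff.2 ((Finset.mem_filter.1 hB).2 X h D hD h4)) h5
      · constructor
        · intro _
          exact (Finset.mem_filter.1 hB).2 D (hDiff.1 h5) X hX h4
        · intro _
          exact (Finset.mem_filter.1 hA).2 D h5 X hX h4

/-- **Hansel's theorem**: the Boolean lattice of rank `n` has at most `3 ^ (n.choose (n / 2))`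
down-sets. -/
theorem card_downSets_le (n : ℕ) : (downSets n).card ≤ 3 ^ (n.choose (n / 2)) := by
  classical
  have h1 : (downSets n).card ≤ (Fintype.piFinset (fun _ : (codes n : Finset (List Bool)) =>
      Finset.range 3)).card := by
    refine Finset.card_le_card_of_injOn (fun 𝒜 l => dcode n 𝒜 l.1) ?_ ?_
    · intro 𝒜 _
      rw [Finset.mem_coe, Fintype.mem_piFinset]
      intro l
      exact Finset.mem_range.2 (dcode_lt n 𝒜 l.1)
    · intro 𝒜 h𝒜 ℬ hℬ hcode
      have hc : ∀ l ∈ codes n, dcode n 𝒜 l = dcode n ℬ l := by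
        intro l hl
        exact congrFun hcode ⟨l, hl⟩
      have h := dcode_inj (Finset.mem_coe.1 h𝒜) (Finset.mem_coe.1 hℬ) hc n
      ext X
      constructor
      · intro hX
        have hXr := Finset.mem_powerset.1 (Finset.mem_filter.1 (Finset.mem_coe.1 h𝒜)).1 hX
        exact (h X hXr (by omega)).1 hX
      · intro hX
        have hXr := Finset.mem_powerset.1 (Finset.mem_filter.1 (Finset.mem_coe.1 hℬ)).1 hX
        exact (h X hXr (by omega)).2 hX
  have h2 : (Fintype.piFinset (fun _ : (codes n : Finset (List Bool)) =>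
      Finset.range 3)).card = 3 ^ (codes n).card := by
    simp
  calc (downSets n).card ≤ _ := h1
    _ = 3 ^ (codes n).card := h2
    _ ≤ 3 ^ (n.choose (n / 2)) := Nat.pow_le_pow_right (by norm_num) (card_codes_le n)

end Pool.Agent.Helper691.Hansel
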