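import Mathlib

/-!
# Maximal antichains of convex families: the branching bounds

`mis r D` is the family of maximal independent sets of the graph `r` on `D`.
-/

set_option linter.unusedSectionVars false
set_option linter.unusedVariables false

namespace Pool.Agent.Helper691.MaxAC

open Finset

section graph

variable {α : Type*} [DecidableEq α] (r : α → α → Prop)

/-- `I` is a maximal independent subset of `D` for the (reflexive, symmetric) relation `r`. -/
def IsMIS (D I : Finset α) : Prop :=
  I ⊆ D ∧ (∀ a ∈ I, ∀ b ∈ I, r a b → a = b) ∧ ∀ x ∈ D, ∃ a ∈ I, r a x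

open Classical in
/-- The family of all maximal independent subsets of `D`. -/
noncomputable def mis (D : Finset α) : Finset (Finset α) :=
  D.powerset.filter (fun I => IsMIS r D I)

open Classical in
theorem mem_mis {D I : Finset α} : I ∈ mis r D ↔ IsMIS r D I := by
  unfold mis
  rw [mem_filter, mem_powerset]
  constructor
  · exact fun h => h.2
  · exact fun h => ⟨h.1, h⟩

open Classical in
/-- Branching on a vertex `v`. -/
theorem branch (hrefl : ∀ a, r a a) (D : Finset α) {v : α} (_hv : v ∈ D) :
    (mis r D).card ≤ (mis r (D.erase v)).card + (mis r (D.filter (fun x => ¬ r v x))).card := by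
  have hsplit : mis r D = (mis r D).filter (fun I => v ∉ I) ∪ (mis r D).filter (fun I => v ∈ I) := by
    ext I
    simp only [mem_union, mem_filter]
    tauto
  rw [hsplit]
  refine (card_union_le _ _).trans (Nat.add_le_add ?_ ?_)
  · refine card_le_card ?_
    intro I hI
    rw [mem_filter, mem_mis] at hI
    obtain ⟨⟨h1, h2, h3⟩, h4⟩ := hI
    rw [mem_mis]
    refine ⟨?_, h2, ?_⟩
    · intro x hx
      rw [mem_erase]
      exact ⟨fun h => h4 (h ▸ hx), h1 hx⟩
    · intro x hx
      exact h3 x (mem_of_mem_erase hx)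
  · refine card_le_card_of_injOn (fun I => I.erase v) ?_ ?_
    · intro I hI
      rw [mem_coe, mem_filter, mem_mis] at hI
      obtain ⟨⟨h1, h2, h3⟩, h4⟩ := hI
      rw [mem_coe, mem_mis]
      refine ⟨?_, ?_, ?_⟩
      · intro x hx
        rw [mem_erase] at hx
        rw [mem_filter]
        refine ⟨h1 hx.2, fun hr => hx.1 (h2 v h4 x hx.2 hr).symm⟩
      · intro a ha b hb
        exact h2 a (mem_of_mem_erase ha) b (mem_of_mem_erase hb)
      · intro x hx
        rw [mem_filter] at hx
        obtain ⟨a, ha, hax⟩ := h3 x hx.1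
        refine ⟨a, ?_, hax⟩
        rw [mem_erase]
        refine ⟨?_, ha⟩
        rintro rfl
        exact hx.2 hax
    · intro I hI J hJ hIJ
      rw [mem_coe, mem_filter] at hI hJ
      have : insert v (I.erase v) = insert v (J.erase v) := by
        simp only at hIJ
        rw [hIJ]
      rwa [insert_erase hI.2, insert_erase hJ.2] at this

open Classical in
/-- If `D` is the union of `A` and of an independent set, a maximal independent set is determined
by its trace on `A`. -/
theorem card_mis_le_two_pow (hsymm : ∀ a b, r a b → r b a) (D A : Finset α)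
    (hB : ∀ x ∈ D, ∀ y ∈ D, x ∉ A → y ∉ A → r x y → x = y) :
    (mis r D).card ≤ 2 ^ A.card := by
  rw [← card_powerset]
  refine card_le_card_of_injOn (fun I => I ∩ A) ?_ ?_
  · intro I _
    rw [mem_coe, mem_powerset]
    exact inter_subset_right
  · have key : ∀ I ∈ mis r D, ∀ J ∈ mis r D, I ∩ A = J ∩ A → I ⊆ J := by
      intro I hI J hJ hIJ x hx
      rw [mem_mis] at hI hJ
      by_cases hxA : x ∈ A
      · have : x ∈ I ∩ A := mem_inter.2 ⟨hx, hxA⟩
        rw [hIJ] at this
        exact (mem_inter.1 this).1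
      · obtain ⟨a, ha, hax⟩ := hJ.2.2 x (hI.1 hx)
        by_cases haA : a ∈ A
        · have haI : a ∈ I := by
            have : a ∈ J ∩ A := mem_inter.2 ⟨ha, haA⟩
            rw [← hIJ] at this
            exact (mem_inter.1 this).1
          have := hI.2.1 a haI x hx hax
          exact this ▸ ha
        · have := hB a (hJ.1 ha) x (hI.1 hx) haA hxA hax
          exact this ▸ ha
    intro I hI J hJ hIJ
    exact Subset.antisymm (key I (mem_coe.1 hI) J (mem_coe.1 hJ) hIJ)
      (key J (mem_coe.1 hJ) I (mem_coe.1 hI) hIJ.symm)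

theorem card_mis_pos_of_empty : (mis r (∅ : Finset α)).card ≤ 1 := by
  classical
  have : mis r (∅ : Finset α) ⊆ {∅} := by
    intro I hI
    rw [mem_mis] at hI
    rw [mem_singleton]
    exact subset_empty.1 hI.1
  simpa using card_le_card this

end graph

section convex

variable {β : Type*} [DecidableEq β]

/-- Comparability. -/
def cmp (A B : Finset β) : Prop := A ⊆ B ∨ B ⊆ A

theorem cmp_refl (A : Finset β) : cmp A A := Or.inl (Subset.refl _)

theorem cmp_symm (A B : Finset β) (h : cmp A B) : cmp B A := Or.symm h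

/-- Convex families of sets. -/
def Convex (D : Finset (Finset β)) : Prop :=
  ∀ X ∈ D, ∀ Z ∈ D, ∀ Y, X ⊆ Y → Y ⊆ Z → Y ∈ D

/-- `X` is a minimal or a maximal member of `D`. -/
def Extremal (D : Finset (Finset β)) (X : Finset β) : Prop :=
  X ∈ D ∧ ((∀ Y ∈ D, Y ⊆ X → Y = X) ∨ (∀ Y ∈ D, X ⊆ Y → Y = X))

theorem Convex.erase {D : Finset (Finset β)} (hD : Convex D) {X : Finset β}
    (hX : Extremal D X) : Convex (D.erase X) := by
  intro P hP R hR Q hPQ hQR
  rw [mem_erase] at hP hR ⊢
  have hQ := hD P hP.2 R hR.2 Q hPQ hQR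
  refine ⟨?_, hQ⟩
  rintro rfl
  rcases hX.2 with h | h
  · exact hP.1 (h P hP.2 hPQ)
  · exact hR.1 (h R hR.2 hQR)

open Classical in
theorem Convex.filter {D : Finset (Finset β)} (hD : Convex D) (X : Finset β) :
    Convex (D.filter (fun Y => ¬ cmp X Y)) := by
  intro P hP R hR Q hPQ hQR
  rw [mem_filter] at hP hR ⊢
  refine ⟨hD P hP.1 R hR.1 Q hPQ hQR, ?_⟩
  rintro (h | h)
  · exact hR.2 (Or.inl (h.trans hQR))
  · exact hP.2 (Or.inr (hPQ.trans h))

open Classical in
theorem exists_min_below (D : Finset (Finset β)) {Y : Finset β} (hY : Y ∈ D) :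
    ∃ X ∈ D, X ⊆ Y ∧ ∀ Z ∈ D, Z ⊆ X → Z = X := by
  obtain ⟨X, hX, hmin⟩ := (D.filter (fun X => X ⊆ Y)).exists_min_image Finset.card
    ⟨Y, mem_filter.2 ⟨hY, Subset.refl _⟩⟩
  rw [mem_filter] at hX
  refine ⟨X, hX.1, hX.2, ?_⟩
  intro Z hZ hZX
  have := hmin Z (mem_filter.2 ⟨hZ, hZX.trans hX.2⟩)
  exact eq_of_subset_of_card_le hZX this

open Classical in
/-- A convex family in which the minimal members have few comparable members has height two. -/
theorem height_two {D : Finset (Finset β)} (hD : Convex D)
    (hdeg : ∀ X, Extremal D X → (D.filter (fun Y => cmp X Y)).card ≤ 3) {Y Z : Finset β}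
    (hY : Y ∈ D) (hZ : Z ∈ D) (hYZ : Y ⊂ Z) : ∀ W ∈ D, W ⊆ Y → W = Y := by
  obtain ⟨X, hX, hXY, hmin⟩ := exists_min_below D hY
  have hXY' : X = Y := by
    by_contra hne
    have hXsY : X ⊂ Y := hXY.ssubset_of_ne hne
    obtain ⟨y, hyY, hyX⟩ := exists_of_ssubset hXsY
    obtain ⟨z, hzZ, hzY⟩ := exists_of_ssubset hYZ
    have hzX : z ∉ X := fun h => hzY (hXY h)
    have hyZ : y ∈ Z := hYZ.1 hyY
    -- the relative complement
    set Q : Finset β := insert z X with hQ
    have hQD : Q ∈ D := by
      refine hD X hX Z hZ Q (subset_insert _ _) ?_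
      intro w hw
      rcases mem_insert.1 hw with rfl | hw
      · exact hzZ
      · exact hYZ.1 (hXY hw)
    have hyQ : y ∉ Q := by
      intro h
      rcases mem_insert.1 h with rfl | h
      · exact hzY hyY
      · exact hyX h
    have hzQ : z ∈ Q := mem_insert_self _ _
    have h4 : ({X, Y, Z, Q} : Finset (Finset β)) ⊆ D.filter (fun Y => cmp X Y) := by
      intro W hW
      simp only [mem_insert, mem_singleton] at hW
      rw [mem_filter]
      rcases hW with rfl | rfl | rfl | rfl
      · exact ⟨hX, cmp_refl _⟩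
      · exact ⟨hY, Or.inl hXY⟩
      · exact ⟨hZ, Or.inl (hXY.trans hYZ.1)⟩
      · exact ⟨hQD, Or.inl (subset_insert _ _)⟩
    have hc : ({X, Y, Z, Q} : Finset (Finset β)).card = 4 := by
      rw [card_insert_of_notMem, card_insert_of_notMem, card_insert_of_notMem, card_singleton]
      · rw [mem_singleton]
        rintro rfl
        exact hyQ hyZ
      · simp only [mem_insert, mem_singleton, not_or]
        refine ⟨?_, ?_⟩
        · rintro rfl; exact hzY hzZ
        · intro h; exact hzY (h ▸ hzQ)
      · simp only [mem_insert, mem_singleton, not_or]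
        refine ⟨hne, ?_, ?_⟩
        · intro h; exact hzX (h ▸ hzZ)
        · intro h; exact hzX (h ▸ hzQ)
    have := (card_le_card h4).trans (hdeg X ⟨hX, Or.inl hmin⟩)
    omega
  subst hXY'
  exact hmin

open Classical in
/-- The number of maximal antichains of a convex family is at most `2 ^ (|D| / 2)`. -/
theorem card_mis_sq_le : ∀ (n : ℕ) (D : Finset (Finset β)), D.card = n → Convex D →
    (mis cmp D).card ^ 2 ≤ 2 ^ n := by
  intro n
  induction n using Nat.strong_induction_on with
  | _ n ih =>
    intro D hn hD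
    by_cases hbig : ∃ X, Extremal D X ∧ 4 ≤ (D.filter (fun Y => cmp X Y)).card
    · obtain ⟨X, hX, h4⟩ := hbig
      have hb := branch cmp cmp_refl D hX.1
      have hc1 : (D.erase X).card = n - 1 := by rw [card_erase_of_mem hX.1, hn]
      have hc2 : (D.filter (fun Y => cmp X Y)).card + (D.filter (fun Y => ¬ cmp X Y)).card = n := by
        rw [← hn]
        exact card_filter_add_card_filter_not _
      have i1 := ih (n - 1) (by omega) (D.erase X) hc1 (hD.erase hX)
      have i2 := ih (D.filter (fun Y => ¬ cmp X Y)).card (by omega) _ rfl (hD.filter X)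
      have i3 : 2 ^ (D.filter (fun Y => ¬ cmp X Y)).card ≤ 2 ^ (n - 4) :=
        Nat.pow_le_pow_right (by norm_num) (by omega)
      obtain ⟨m, rfl⟩ : ∃ m, n = m + 4 := ⟨n - 4, by omega⟩
      have e1 : m + 4 - 1 = m + 3 := by omega
      have e2 : m + 4 - 4 = m := by omega
      rw [e1] at i1
      rw [e2] at i3
      set a := (mis cmp (D.erase X)).card
      set b := (mis cmp (D.filter (fun Y => ¬ cmp X Y))).card
      have i4 : b ^ 2 ≤ 2 ^ m := i2.trans i3
      have i5 : (a + b) ^ 2 ≤ 2 ^ (m + 4) := by
        have p3 : (2 : ℕ) ^ (m + 3) = 8 * 2 ^ m := by ring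
        have p4 : (2 : ℕ) ^ (m + 4) = 16 * 2 ^ m := by ring
        rw [p3] at i1
        rw [p4]
        zify at i1 i4 ⊢
        nlinarith [sq_nonneg ((a : ℤ) - 2 * b)]
      exact (Nat.pow_le_pow_left hb 2).trans i5
    · push Not at hbig
      have hdeg : ∀ X, Extremal D X → (D.filter (fun Y => cmp X Y)).card ≤ 3 := by
        intro X hX
        have := hbig X hX
        omega
      -- the non-maximal members
      set A := D.filter (fun X => ∃ Y ∈ D, X ⊂ Y) with hA
      set B := D.filter (fun X => ¬ ∃ Y ∈ D, X ⊂ Y) with hB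
      have hAB : A.card + B.card = n := by
        rw [← hn]
        exact card_filter_add_card_filter_not _
      have h1 : (mis cmp D).card ≤ 2 ^ A.card := by
        refine card_mis_le_two_pow cmp cmp_symm D A ?_
        intro x hx y hy hxA hyA hxy
        have hx' : ¬ ∃ Y ∈ D, x ⊂ Y := fun h => hxA (mem_filter.2 ⟨hx, h⟩)
        have hy' : ¬ ∃ Y ∈ D, y ⊂ Y := fun h => hyA (mem_filter.2 ⟨hy, h⟩)
        rcases hxy with h | h
        · by_contra hne
          exact hx' ⟨y, hy, h.ssubset_of_ne hne⟩
        · by_contra hne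
          exact hy' ⟨x, hx, h.ssubset_of_ne (Ne.symm hne)⟩
      have h2 : (mis cmp D).card ≤ 2 ^ B.card := by
        refine card_mis_le_two_pow cmp cmp_symm D B ?_
        intro x hx y hy hxB hyB hxy
        have hx' : ∃ Y ∈ D, x ⊂ Y := by
          by_contra h
          exact hxB (mem_filter.2 ⟨hx, h⟩)
        have hy' : ∃ Y ∈ D, y ⊂ Y := by
          by_contra h
          exact hyB (mem_filter.2 ⟨hy, h⟩)
        obtain ⟨Z, hZ, hxZ⟩ := hx'
        obtain ⟨W, hW, hyW⟩ := hy'
        rcases hxy with h | h
        · exact height_two hD hdeg hy hW hyW x hx h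
        · exact (height_two hD hdeg hx hZ hxZ y hy h).symm
      calc (mis cmp D).card ^ 2 = (mis cmp D).card * (mis cmp D).card := sq _
        _ ≤ 2 ^ A.card * 2 ^ B.card := Nat.mul_le_mul h1 h2
        _ = 2 ^ n := by rw [← pow_add, hAB]

open Classical in
/-- The branching bound: branch on extremal members with at least `k` comparable members. -/
theorem card_mis_le_branch (k : ℕ) (hk : 1 ≤ k) (lam : ℝ) (hlam : 1 ≤ lam)
    (hlk : lam ^ (k - 1) + 1 ≤ lam ^ k) (B : ℝ) (hB : 0 ≤ B)
    (hM : ∀ D : Finset (Finset β), Convex D →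
      (∀ X, Extremal D X → (D.filter (fun Y => cmp X Y)).card < k) → (2 : ℝ) ^ D.card ≤ B ^ 2) :
    ∀ (n : ℕ) (D : Finset (Finset β)), D.card = n → Convex D →
      ((mis cmp D).card : ℝ) ≤ lam ^ n * B := by
  intro n
  induction n using Nat.strong_induction_on with
  | _ n ih =>
    intro D hn hD
    by_cases hbig : ∃ X, Extremal D X ∧ k ≤ (D.filter (fun Y => cmp X Y)).card
    · obtain ⟨X, hX, h4⟩ := hbig
      have hb := branch cmp cmp_refl D hX.1
      have hc1 : (D.erase X).card = n - 1 := by rw [card_erase_of_mem hX.1, hn]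
      have hc2 : (D.filter (fun Y => cmp X Y)).card + (D.filter (fun Y => ¬ cmp X Y)).card = n := by
        rw [← hn]
        exact card_filter_add_card_filter_not _
      have i1 := ih (n - 1) (by omega) (D.erase X) hc1 (hD.erase hX)
      have i2 := ih (D.filter (fun Y => ¬ cmp X Y)).card (by omega) _ rfl (hD.filter X)
      have i3 : lam ^ (D.filter (fun Y => ¬ cmp X Y)).card ≤ lam ^ (n - k) :=
        pow_le_pow_right₀ hlam (by omega)
      have hb' : ((mis cmp D).card : ℝ) ≤ ((mis cmp (D.erase X)).card : ℝ) +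
          ((mis cmp (D.filter (fun Y => ¬ cmp X Y))).card : ℝ) := by exact_mod_cast hb
      have e1 : lam ^ (n - 1) = lam ^ (n - k) * lam ^ (k - 1) := by
        rw [← pow_add]
        congr 1
        omega
      have e2 : lam ^ n = lam ^ (n - k) * lam ^ k := by
        rw [← pow_add]
        congr 1
        omega
      have hp : 0 ≤ lam ^ (n - k) := by positivity
      calc ((mis cmp D).card : ℝ) ≤ lam ^ (n - 1) * B + lam ^ (n - k) * B :=
            hb'.trans (add_le_add i1 (i2.trans (mul_le_mul_of_nonneg_right i3 hB)))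
        _ = lam ^ (n - k) * (lam ^ (k - 1) + 1) * B := by rw [e1]; ring
        _ ≤ lam ^ (n - k) * lam ^ k * B :=
            mul_le_mul_of_nonneg_right (mul_le_mul_of_nonneg_left hlk hp) hB
        _ = lam ^ n * B := by rw [e2]
    · push Not at hbig
      have h1 := hM D hD hbig
      have h2 := card_mis_sq_le D.card D rfl hD
      have h3 : ((mis cmp D).card : ℝ) ^ 2 ≤ B ^ 2 := by
        refine le_trans ?_ h1
        exact_mod_cast h2
      have h4 : ((mis cmp D).card : ℝ) ≤ B := by
        exact (pow_le_pow_iff_left₀ (by positivity) hB (by norm_num)).1 h3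
      calc ((mis cmp D).card : ℝ) ≤ 1 * B := by rw [one_mul]; exact h4
        _ ≤ lam ^ n * B := mul_le_mul_of_nonneg_right (one_le_pow₀ hlam) hB

end convex

end Pool.Agent.Helper691.MaxAC
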