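import Mathlib

/-!
# Definitions for the six-point pattern of 4-sets (MP_e9ef01_co)
-/

namespace Pool.Agent.Helper691.Pattern6

/-- `c` restricts to a `t`-colouring (with colours `1, …, t`) of the 4-element subsets of
`{1, …, n}`. -/
def IsColouring (n t : ℕ) (c : Finset ℕ → ℕ) : Prop :=
  ∀ s ∈ (Finset.Icc 1 n).powersetCard 4, c s ∈ Finset.Icc 1 t

/-- `c` contains the pattern inside `{1, …, n}`: there are `i₁ < i₂ < i₃ < i₄ < i₅ < i₆` in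
`{1, …, n}` with `c {i₁, i₂, i₃, i₅} = c {i₂, i₄, i₅, i₆}`. -/
def HasPattern (n : ℕ) (c : Finset ℕ → ℕ) : Prop :=
  ∃ i₁ i₂ i₃ i₄ i₅ i₆ : ℕ, 1 ≤ i₁ ∧ i₁ < i₂ ∧ i₂ < i₃ ∧ i₃ < i₄ ∧ i₄ < i₅ ∧ i₅ < i₆ ∧ i₆ ≤ n ∧
    c {i₁, i₂, i₃, i₅} = c {i₂, i₄, i₅, i₆}

/-- The set of all `n ≥ 1` such that every `t`-colouring of the 4-subsets of `{1, …, n}` contains
the pattern. -/
def GoodSet (t : ℕ) : Set ℕ :=
  {n | 1 ≤ n ∧ ∀ c : Finset ℕ → ℕ, IsColouring n t c → HasPattern n c}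

/-- The Ramsey number `n_t`: the least `n` such that every `t`-colouring of the 4-subsets of
`{1, …, n}` contains the pattern. -/
noncomputable def nt (t : ℕ) : ℕ := sInf (GoodSet t)

end Pool.Agent.Helper691.Pattern6
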