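import Mathlib
import Pool.Agent.Helper691.Pattern6

/-!
# Lower bound for the six-point pattern: a doubly exponential construction
-/

namespace Pool.Agent.Helper691.Pattern6Lower

open Pool.Agent.Helper691.Pattern6

theorem lev_ex (x y : ℕ) : ∃ k, x / 2 ^ k = y / 2 ^ k := by
  refine ⟨x + y, ?_⟩
  have h1 : x < 2 ^ (x + y) :=
    lt_of_lt_of_le Nat.lt_two_pow_self (Nat.pow_le_pow_right (by norm_num) (by omega))
  have h2 : y < 2 ^ (x + y) :=
    lt_of_lt_of_le Nat.lt_two_pow_self (Nat.pow_le_pow_right (by norm_num) (by omega))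
  rw [Nat.div_eq_of_lt h1, Nat.div_eq_of_lt h2]

/-- The least `k` such that `x` and `y` agree after deleting the last `k` binary digits. -/
def lev (x y : ℕ) : ℕ := Nat.find (lev_ex x y)

theorem div_pow_add (x k j : ℕ) : x / 2 ^ (k + j) = x / 2 ^ k / 2 ^ j := by
  rw [pow_add, Nat.div_div_eq_div_mul]

theorem lev_le_iff (x y k : ℕ) : lev x y ≤ k ↔ x / 2 ^ k = y / 2 ^ k := by
  constructor
  · intro h
    have h1 := Nat.find_spec (lev_ex x y)
    obtain ⟨j, rfl⟩ := Nat.exists_eq_add_of_le h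
    unfold lev
    rw [div_pow_add, div_pow_add, h1]
  · intro h
    exact Nat.find_min' _ h

theorem lev_pos {x y : ℕ} (h : x < y) : 1 ≤ lev x y := by
  by_contra hc
  have h0 : lev x y ≤ 0 := by omega
  rw [lev_le_iff] at h0
  simp at h0
  omega

theorem lev_le_of_lt {x y D : ℕ} (hx : x < 2 ^ D) (hy : y < 2 ^ D) : lev x y ≤ D := by
  rw [lev_le_iff, Nat.div_eq_of_lt hx, Nat.div_eq_of_lt hy]

theorem not_three {p q r K : ℕ} (h1 : p / 2 ^ K < q / 2 ^ K) (h2 : q / 2 ^ K < r / 2 ^ K)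
    (h3 : p / 2 ^ (K + 1) = r / 2 ^ (K + 1)) : False := by
  rw [div_pow_add, div_pow_add] at h3
  omega

theorem div_lt_of_lev {x y K : ℕ} (hxy : x ≤ y) (h : K < lev x y) : x / 2 ^ K < y / 2 ^ K := by
  have h1 : ¬ (lev x y ≤ K) := by omega
  rw [lev_le_iff] at h1
  exact lt_of_le_of_ne (Nat.div_le_div_right hxy) h1

theorem div_le {x y : ℕ} (K : ℕ) (hxy : x ≤ y) : x / 2 ^ K ≤ y / 2 ^ K :=
  Nat.div_le_div_right hxy

/-- If `lev a c = lev b d` for `a < b < c < d`, the two middle points are separated at that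
level. -/
theorem mid_sep {a b c d : ℕ} (hab : a < b) (hbc : b < c) (hcd : c < d)
    (h : lev a c = lev b d) : lev b c = lev b d := by
  have hac : 1 ≤ lev a c := lev_pos (by omega)
  obtain ⟨K, hK⟩ : ∃ K, lev a c = K + 1 := ⟨lev a c - 1, by omega⟩
  have hK2 : lev b d = K + 1 := by omega
  have e1 : b / 2 ^ (K + 1) = d / 2 ^ (K + 1) := (lev_le_iff _ _ _).1 (by omega)
  have e0 : a / 2 ^ (K + 1) = c / 2 ^ (K + 1) := (lev_le_iff _ _ _).1 (by omega)
  have l1 := div_le (K + 1) hab.le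
  have l2 := div_le (K + 1) hbc.le
  have l3 := div_le (K + 1) hcd.le
  have e2 : b / 2 ^ (K + 1) = c / 2 ^ (K + 1) := by omega
  have e3 : a / 2 ^ (K + 1) = d / 2 ^ (K + 1) := by omega
  have u1 : lev b c ≤ K + 1 := (lev_le_iff _ _ _).2 e2
  by_contra hne
  have hlt : lev b c ≤ K := by omega
  rw [lev_le_iff] at hlt
  have h1 : a / 2 ^ K < c / 2 ^ K := div_lt_of_lev (by omega) (by omega)
  have h2 : b / 2 ^ K < d / 2 ^ K := div_lt_of_lev (by omega) (by omega)
  exact not_three (p := a) (q := b) (r := d) (K := K) (by omega) h2 e3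

section colouring

variable (m : ℕ) (S : ℕ → Finset (Fin m))

/-- A colour in `P \ Q`, shifted to lie in `{1, …, m}`. -/
noncomputable def pick (P Q : Finset (Fin m)) : ℕ :=
  open Classical in
  if h : ∃ i, i ∈ P ∧ i ∉ Q then (Classical.choose h).val + 1 else 1

/-- The colour of a quadruple. -/
noncomputable def quadCol (a b c d : ℕ) : ℕ :=
  if lev a c = lev b d then m + 1 else pick m (S (lev a c)) (S (lev b d))

/-- The colouring of finite sets. -/
noncomputable def col (s : Finset ℕ) : ℕ :=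
  quadCol m S ((s.sort (· ≤ ·)).getD 0 0 - 1) ((s.sort (· ≤ ·)).getD 1 0 - 1)
    ((s.sort (· ≤ ·)).getD 2 0 - 1) ((s.sort (· ≤ ·)).getD 3 0 - 1)

theorem sort_four {a b c d : ℕ} (hab : a < b) (hbc : b < c) (hcd : c < d) :
    ({a, b, c, d} : Finset ℕ).sort (· ≤ ·) = [a, b, c, d] := by
  have h1 : ({a, b, c, d} : Finset ℕ) = [a, b, c, d].toFinset := by simp
  rw [h1]
  refine List.Perm.eq_of_pairwise (le := (· ≤ ·)) ?_ ?_ ?_ ?_
  · intro x y _ _ hxy hyx
    exact le_antisymm hxy hyx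
  · exact Finset.pairwise_sort _ _
  · simp only [List.pairwise_cons, List.mem_cons, List.not_mem_nil, or_false]
    refine ⟨?_, ?_, ?_, ?_, ?_⟩
    · rintro x (rfl | rfl | rfl) <;> omega
    · rintro x (rfl | rfl) <;> omega
    · rintro x rfl; omega
    · simp
    · simp
  · rw [List.perm_iff_count]
    intro x
    have hnd : [a, b, c, d].Nodup := by
      simp
      omega
    have hp : ([a, b, c, d].toFinset.sort (· ≤ ·)).Perm [a, b, c, d] := by
      refine (List.perm_ext_iff_of_nodup (Finset.sort_nodup _ _) hnd).2 ?_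
      intro y
      simp
    exact hp.count_eq x

theorem col_four {a b c d : ℕ} (hab : a < b) (hbc : b < c) (hcd : c < d) :
    col m S {a, b, c, d} = quadCol m S (a - 1) (b - 1) (c - 1) (d - 1) := by
  unfold col
  rw [sort_four hab hbc hcd]
  simp

theorem pick_mem {P Q : Finset (Fin m)} (h : ∃ i, i ∈ P ∧ i ∉ Q) :
    ∃ i : Fin m, i ∈ P ∧ i ∉ Q ∧ pick m P Q = i.val + 1 := by
  refine ⟨Classical.choose h, (Classical.choose_spec h).1, (Classical.choose_spec h).2, ?_⟩
  unfold pick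
  rw [dif_pos h]

end colouring

/-- Four elements of a 4-subset in increasing order. -/
theorem exists_four {s : Finset ℕ} (hs : s.card = 4) :
    ∃ a b c d : ℕ, a < b ∧ b < c ∧ c < d ∧ s = {a, b, c, d} := by
  have e := s.orderEmbOfFin hs
  refine ⟨s.orderEmbOfFin hs 0, s.orderEmbOfFin hs 1, s.orderEmbOfFin hs 2,
    s.orderEmbOfFin hs 3, ?_, ?_, ?_, ?_⟩
  · exact (s.orderEmbOfFin hs).strictMono (by decide)
  · exact (s.orderEmbOfFin hs).strictMono (by decide)
  · exact (s.orderEmbOfFin hs).strictMono (by decide)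
  · have h := Finset.image_orderEmbOfFin_univ s hs
    ext x
    constructor
    · intro hx
      rw [← h, Finset.mem_image] at hx
      obtain ⟨k, -, rfl⟩ := hx
      fin_cases k <;> simp
    · intro hx
      simp only [Finset.mem_insert, Finset.mem_singleton] at hx
      rcases hx with rfl | rfl | rfl | rfl <;> exact Finset.orderEmbOfFin_mem s hs _

/-- The construction: an antichain `S 1, …, S D` of subsets of `Fin m` gives a colouring of the
4-subsets of `{1, …, 2 ^ D}` by `m + 1` colours without the pattern. -/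
theorem no_pattern (m D : ℕ) (S : ℕ → Finset (Fin m))
    (hS : ∀ i j, 1 ≤ i → i ≤ D → 1 ≤ j → j ≤ D → i ≠ j → ∃ x, x ∈ S i ∧ x ∉ S j) :
    IsColouring (2 ^ D) (m + 1) (col m S) ∧ ¬ HasPattern (2 ^ D) (col m S) := by
  constructor
  · intro s hs
    rw [Finset.mem_powersetCard] at hs
    obtain ⟨a, b, c, d, hab, hbc, hcd, rfl⟩ := exists_four hs.2
    rw [col_four m S hab hbc hcd]
    have ha := Finset.mem_Icc.1 (hs.1 (by simp : a ∈ ({a, b, c, d} : Finset ℕ)))
    have hd := Finset.mem_Icc.1 (hs.1 (by simp : d ∈ ({a, b, c, d} : Finset ℕ)))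
    unfold quadCol
    split_ifs with h
    · simp
    · have h1 : 1 ≤ lev (a - 1) (c - 1) := lev_pos (by omega)
      have h2 : lev (a - 1) (c - 1) ≤ D := lev_le_of_lt (by omega) (by omega)
      have h3 : 1 ≤ lev (b - 1) (d - 1) := lev_pos (by omega)
      have h4 : lev (b - 1) (d - 1) ≤ D := lev_le_of_lt (by omega) (by omega)
      obtain ⟨i, -, -, hi⟩ := pick_mem m (hS _ _ h1 h2 h3 h4 h)
      rw [hi, Finset.mem_Icc]
      have := i.isLt
      omega
  · rintro ⟨i₁, i₂, i₃, i₄, i₅, i₆, h0, h1, h2, h3, h4, h5, h6, hc⟩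
    rw [col_four m S h1 h2 (by omega), col_four m S (by omega) h4 h5] at hc
    obtain ⟨a₁, rfl⟩ : ∃ x, i₁ = x + 1 := ⟨i₁ - 1, by omega⟩
    obtain ⟨a₂, rfl⟩ : ∃ x, i₂ = x + 1 := ⟨i₂ - 1, by omega⟩
    obtain ⟨a₃, rfl⟩ : ∃ x, i₃ = x + 1 := ⟨i₃ - 1, by omega⟩
    obtain ⟨a₄, rfl⟩ : ∃ x, i₄ = x + 1 := ⟨i₄ - 1, by omega⟩
    obtain ⟨a₅, rfl⟩ : ∃ x, i₅ = x + 1 := ⟨i₅ - 1, by omega⟩
    obtain ⟨a₆, rfl⟩ : ∃ x, i₆ = x + 1 := ⟨i₆ - 1, by omega⟩
    simp only [Nat.add_sub_cancel] at hc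
    have bd : ∀ x y, x < y → y ≤ a₆ → 1 ≤ lev x y ∧ lev x y ≤ D := fun x y hxy hy =>
      ⟨lev_pos hxy, lev_le_of_lt (by omega) (by omega)⟩
    obtain ⟨x1, x2⟩ := bd a₁ a₃ (by omega) (by omega)
    obtain ⟨y1, y2⟩ := bd a₂ a₅ (by omega) (by omega)
    obtain ⟨z1, z2⟩ := bd a₄ a₆ (by omega) (by omega)
    unfold quadCol at hc
    split_ifs at hc with hA hB hB
    · -- both quadruples are of the middle type: impossible
      have s1 := mid_sep (a := a₁) (b := a₂) (c := a₃) (d := a₅) (by omega) (by omega)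
        (by omega) hA
      have s2 := mid_sep (a := a₂) (b := a₄) (c := a₅) (d := a₆) (by omega) (by omega)
        (by omega) hB
      obtain ⟨K, hK⟩ : ∃ K, lev a₂ a₅ = K + 1 := ⟨lev a₂ a₅ - 1, by omega⟩
      have l1 : a₂ / 2 ^ K < a₃ / 2 ^ K := div_lt_of_lev (by omega) (by omega)
      have l2 : a₄ / 2 ^ K < a₅ / 2 ^ K := div_lt_of_lev (by omega) (by omega)
      have l3 : a₃ / 2 ^ K ≤ a₄ / 2 ^ K := div_le K (by omega)
      exact not_three (p := a₂) (q := a₃) (r := a₅) (K := K) l1 (by omega)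
        ((lev_le_iff _ _ _).1 (by omega))
    · obtain ⟨i, -, -, hi⟩ := pick_mem m (hS _ _ y1 y2 z1 z2 hB)
      have := i.isLt
      omega
    · obtain ⟨i, -, -, hi⟩ := pick_mem m (hS _ _ x1 x2 y1 y2 hA)
      have := i.isLt
      omega
    · obtain ⟨i, -, hi2, hi⟩ := pick_mem m (hS _ _ x1 x2 y1 y2 hA)
      obtain ⟨j, hj1, -, hj⟩ := pick_mem m (hS _ _ y1 y2 z1 z2 hB)
      have : i = j := by
        apply Fin.ext
        omega
      subst this
      exact hi2 hj1

/-- An enumeration of a uniform family of subsets. -/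
theorem exists_antichain (m k : ℕ) : ∃ S : ℕ → Finset (Fin m),
    ∀ i j, 1 ≤ i → i ≤ m.choose k → 1 ≤ j → j ≤ m.choose k → i ≠ j → ∃ x, x ∈ S i ∧ x ∉ S j := by
  classical
  have hcard : (Finset.powersetCard k (Finset.univ : Finset (Fin m))).card = m.choose k := by
    simp
  let e := Finset.equivFinOfCardEq hcard
  refine ⟨fun i => if h : i - 1 < m.choose k then (e.symm ⟨i - 1, h⟩).1 else ∅, ?_⟩
  intro i j hi1 hi2 hj1 hj2 hij
  have hi : i - 1 < m.choose k := by omega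
  have hj : j - 1 < m.choose k := by omega
  simp only [dif_pos hi, dif_pos hj]
  by_contra hc
  push Not at hc
  have h1 := Finset.mem_powersetCard.1 (e.symm ⟨i - 1, hi⟩).2
  have h2 := Finset.mem_powersetCard.1 (e.symm ⟨j - 1, hj⟩).2
  have h3 := Finset.eq_of_subset_of_card_le (s := (e.symm ⟨i - 1, hi⟩).1)
    (t := (e.symm ⟨j - 1, hj⟩).1) hc (by omega)
  have h4 := e.symm.injective (Subtype.ext h3)
  have h5 := congrArg Fin.val h4
  simp at h5
  omega

/-- Restriction of a colouring. -/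
theorem isColouring_mono {n n' t : ℕ} (h : n ≤ n') {c : Finset ℕ → ℕ}
    (hc : IsColouring n' t c) : IsColouring n t c := by
  intro s hs
  refine hc s ?_
  rw [Finset.mem_powersetCard] at hs ⊢
  exact ⟨hs.1.trans (Finset.Icc_subset_Icc_right h), hs.2⟩

theorem hasPattern_mono {n n' : ℕ} (h : n ≤ n') {c : Finset ℕ → ℕ}
    (hc : HasPattern n c) : HasPattern n' c := by
  obtain ⟨i₁, i₂, i₃, i₄, i₅, i₆, h0, h1, h2, h3, h4, h5, h6, hc⟩ := hc
  exact ⟨i₁, i₂, i₃, i₄, i₅, i₆, h0, h1, h2, h3, h4, h5, h6.trans h, hc⟩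

theorem lower_mem (t : ℕ) (ht : 1 ≤ t) (n : ℕ) (hn : n ∈ GoodSet t) :
    2 ^ ((t - 1).choose ((t - 1) / 2)) < n := by
  obtain ⟨m, rfl⟩ : ∃ m, t = m + 1 := ⟨t - 1, by omega⟩
  simp only [Nat.add_sub_cancel]
  obtain ⟨S, hS⟩ := exists_antichain m (m / 2)
  obtain ⟨h1, h2⟩ := no_pattern m (m.choose (m / 2)) S hS
  by_contra hlt
  push Not at hlt
  exact h2 (hasPattern_mono hlt (hn.2 _ (isColouring_mono hlt h1)))

end Pool.Agent.Helper691.Pattern6Lower
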