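import Mathlib
import Pool.Agent.Helper691.Pattern6
import Pool.Agent.Helper691.Hansel

/-!
# Upper bound for the six-point pattern: `n_t ≤ 2 D(t) + 2`, `D(t)` the number of down-sets
-/

namespace Pool.Agent.Helper691.Pattern6Upper

open Pool.Agent.Helper691.Pattern6 Pool.Agent.Helper691.Hansel

/-- The set of colours (shifted down by one) of the quadruples `{2u+1, 2v+1, 2v+2, 2w+2}`,
`u < v`. -/
def colSet (c : Finset ℕ → ℕ) (v w : ℕ) : Finset ℕ :=
  (Finset.range v).image (fun u => c {2 * u + 1, 2 * v + 1, 2 * v + 2, 2 * w + 2} - 1)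

/-- The down-set generated by the `colSet c v w`, `v < w`. -/
def dset (t : ℕ) (c : Finset ℕ → ℕ) (w : ℕ) : Finset (Finset ℕ) :=
  (Finset.range t).powerset.filter (fun S => ∃ v ∈ Finset.range w, S ⊆ colSet c v w)

theorem dset_mem (t : ℕ) (c : Finset ℕ → ℕ) (w : ℕ) : dset t c w ∈ downSets t := by
  unfold downSets
  rw [Finset.mem_filter, Finset.mem_powerset]
  refine ⟨Finset.filter_subset _ _, ?_⟩
  intro A hA B hB hBA
  unfold dset at hA ⊢
  rw [Finset.mem_filter] at hA ⊢
  obtain ⟨-, v, hv, hAv⟩ := hA
  exact ⟨hB, v, hv, hBA.trans hAv⟩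

theorem quad_mem {n a b c d : ℕ} (ha : 1 ≤ a) (hab : a < b) (hbc : b < c) (hcd : c < d)
    (hd : d ≤ n) : ({a, b, c, d} : Finset ℕ) ∈ (Finset.Icc 1 n).powersetCard 4 := by
  rw [Finset.mem_powersetCard]
  constructor
  · intro x hx
    simp only [Finset.mem_insert, Finset.mem_singleton] at hx
    rw [Finset.mem_Icc]
    omega
  · rw [Finset.card_insert_of_notMem, Finset.card_insert_of_notMem,
      Finset.card_insert_of_notMem, Finset.card_singleton]
    · simp; omega
    · simp; omega
    · simp; omega

theorem colour_range {n t : ℕ} {col : Finset ℕ → ℕ} (hcol : IsColouring n t col)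
    {a b c d : ℕ} (ha : 1 ≤ a) (hab : a < b) (hbc : b < c) (hcd : c < d)
    (hd : d ≤ n) : 1 ≤ col {a, b, c, d} ∧ col {a, b, c, d} ≤ t :=
  Finset.mem_Icc.1 (hcol _ (quad_mem ha hab hbc hcd hd))

theorem upper_aux {t m : ℕ} {c : Finset ℕ → ℕ} (hc : IsColouring (2 * m) t c)
    (hp : ¬ HasPattern (2 * m) c) : m ≤ (downSets t).card := by
  have hinj : Set.InjOn (dset t c) (Finset.range m : Set ℕ) := by
    have key : ∀ w x, w < x → x < m → dset t c w ≠ dset t c x := by
      intro w x hwx hxm heq
      have hmem : colSet c w x ∈ dset t c x := by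
        unfold dset
        rw [Finset.mem_filter, Finset.mem_powerset]
        refine ⟨?_, w, Finset.mem_range.2 hwx, Finset.Subset.refl _⟩
        intro k hk
        unfold colSet at hk
        obtain ⟨u, hu, rfl⟩ := Finset.mem_image.1 hk
        have hu' := Finset.mem_range.1 hu
        have := colour_range hc (a := 2 * u + 1) (b := 2 * w + 1) (c := 2 * w + 2)
          (d := 2 * x + 2) (by omega) (by omega) (by omega) (by omega) (by omega)
        rw [Finset.mem_range]
        omega
      rw [← heq] at hmem
      unfold dset at hmem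
      rw [Finset.mem_filter] at hmem
      obtain ⟨-, v, hv, hsub⟩ := hmem
      have hv' := Finset.mem_range.1 hv
      have h1 : c {2 * v + 1, 2 * w + 1, 2 * w + 2, 2 * x + 2} - 1 ∈ colSet c w x :=
        Finset.mem_image.2 ⟨v, Finset.mem_range.2 hv', rfl⟩
      have h2 := hsub h1
      unfold colSet at h2
      obtain ⟨u, hu, hu2⟩ := Finset.mem_image.1 h2
      have hu' := Finset.mem_range.1 hu
      have r1 := colour_range hc (a := 2 * v + 1) (b := 2 * w + 1) (c := 2 * w + 2)
          (d := 2 * x + 2) (by omega) (by omega) (by omega) (by omega) (by omega)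
      have r2 := colour_range hc (a := 2 * u + 1) (b := 2 * v + 1) (c := 2 * v + 2)
          (d := 2 * w + 2) (by omega) (by omega) (by omega) (by omega) (by omega)
      refine hp ⟨2 * u + 1, 2 * v + 1, 2 * v + 2, 2 * w + 1, 2 * w + 2, 2 * x + 2, by omega,
        by omega, by omega, by omega, by omega, by omega, by omega, ?_⟩
      omega
    intro w hw x hx heq
    have hw' := Finset.mem_range.1 (Finset.mem_coe.1 hw)
    have hx' := Finset.mem_range.1 (Finset.mem_coe.1 hx)
    rcases lt_trichotomy w x with h | h | h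
    · exact absurd heq (key w x h hx')
    · exact h
    · exact absurd heq.symm (key x w h hw')
  calc m = (Finset.range m).card := by simp
    _ = ((Finset.range m).image (dset t c)).card := (Finset.card_image_of_injOn hinj).symm
    _ ≤ (downSets t).card := by
        refine Finset.card_le_card ?_
        intro 𝒜 h𝒜
        obtain ⟨w, -, rfl⟩ := Finset.mem_image.1 h𝒜
        exact dset_mem t c w

theorem upper_mem (t : ℕ) : 2 * (downSets t).card + 2 ∈ GoodSet t := by
  refine ⟨by omega, ?_⟩
  intro c hc
  by_contra hp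
  have h : 2 * (downSets t).card + 2 = 2 * ((downSets t).card + 1) := by ring
  rw [h] at hc hp
  have := upper_aux hc hp
  omega

theorem upper (t : ℕ) : nt t ≤ 2 * 3 ^ (t.choose (t / 2)) + 2 := by
  have h1 : nt t ≤ 2 * (downSets t).card + 2 := Nat.sInf_le (upper_mem t)
  have h2 := card_downSets_le t
  omega

end Pool.Agent.Helper691.Pattern6Upper
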