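import Mathlib
import Pool.Agent.Helper691.Pattern6
import Pool.Agent.Helper691.Pattern6Lower
import Pool.Agent.Helper691.Pattern6Upper
import Pool.Agent.Helper691.MaxAC

/-!
# Upper bound for the six-point pattern: `n_t ≤ 2 ^ (t + 3) * M(t)`, `M(t)` the number of maximal
antichains of the Boolean lattice of rank `t`
-/

set_option linter.unusedSectionVars false
set_option linter.unusedVariables false

namespace Pool.Agent.Helper691.Pattern6Cover

open Finset Pool.Agent.Helper691.MaxAC Pool.Agent.Helper691.Pattern6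
  Pool.Agent.Helper691.Pattern6Upper Pool.Agent.Helper691.Pattern6Lower

section cover

variable {β : Type*} [DecidableEq β] [Fintype β]

open Classical in
/-- The sets with no member of `U` strictly below them. -/
noncomputable def low (U : Finset (Finset β)) : Finset (Finset β) :=
  univ.filter (fun X => ∀ A ∈ U, ¬ A ⊂ X)

open Classical in
/-- The maximal members of `low U`. -/
noncomputable def cov (U : Finset (Finset β)) : Finset (Finset β) :=
  (low U).filter (fun X => ∀ Y ∈ low U, X ⊆ Y → Y = X)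

theorem mem_low {U : Finset (Finset β)} {X : Finset β} :
    X ∈ low U ↔ ∀ A ∈ U, ¬ A ⊂ X := by
  unfold low
  simp

theorem mem_cov {U : Finset (Finset β)} {X : Finset β} :
    X ∈ cov U ↔ X ∈ low U ∧ ∀ Y ∈ low U, X ⊆ Y → Y = X := by
  unfold cov
  rw [mem_filter]

theorem exists_max_above (D : Finset (Finset β)) {Y : Finset β} (hY : Y ∈ D) :
    ∃ X ∈ D, Y ⊆ X ∧ ∀ Z ∈ D, X ⊆ Z → Z = X := by
  classical
  obtain ⟨X, hX, hmax⟩ := (D.filter (fun X => Y ⊆ X)).exists_max_image Finset.card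
    ⟨Y, mem_filter.2 ⟨hY, Subset.refl _⟩⟩
  rw [mem_filter] at hX
  refine ⟨X, hX.1, hX.2, ?_⟩
  intro Z hZ hXZ
  have := hmax Z (mem_filter.2 ⟨hZ, hX.2.trans hXZ⟩)
  exact (eq_of_subset_of_card_le hXZ this).symm

/-- Every member of `U` lies above a member of `cov U`. -/
theorem exists_cov_below {U : Finset (Finset β)} {X : Finset β} (hX : X ∈ U) :
    ∃ M ∈ cov U, M ⊆ X := by
  obtain ⟨A, hA, hAX, hmin⟩ := exists_min_below U hX
  have hAlow : A ∈ low U := by
    rw [mem_low]
    intro B hB hBA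
    exact hBA.ne (hmin B hB hBA.1)
  obtain ⟨M, hM, hAM, hmax⟩ := exists_max_above (low U) hAlow
  have : A = M := by
    by_contra hne
    exact mem_low.1 hM A hA (hAM.ssubset_of_ne hne)
  subst this
  exact ⟨A, mem_cov.2 ⟨hM, hmax⟩, hAX⟩

theorem cov_mem_mis (U : Finset (Finset β)) : cov U ∈ mis cmp (univ : Finset (Finset β)) := by
  rw [mem_mis]
  refine ⟨subset_univ _, ?_, ?_⟩
  · intro A hA B hB hAB
    rw [mem_cov] at hA hB
    rcases hAB with h | h
    · exact (hA.2 B hB.1 h).symm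
    · exact hB.2 A hA.1 h
  · intro X _
    by_cases hX : X ∈ low U
    · obtain ⟨M, hM, hXM, hmax⟩ := exists_max_above (low U) hX
      exact ⟨M, mem_cov.2 ⟨hM, hmax⟩, Or.inr hXM⟩
    · rw [mem_low] at hX
      push Not at hX
      obtain ⟨A, hA, hAX⟩ := hX
      obtain ⟨M, hM, hMA⟩ := exists_cov_below hA
      exact ⟨M, hM, Or.inl (hMA.trans hAX.1)⟩

/-- Strictly above a member of `cov U` there are only members of `U`, if `U` is an up-set. -/
theorem mem_of_cov_ssubset {U : Finset (Finset β)} (hU : ∀ A ∈ U, ∀ B, A ⊆ B → B ∈ U)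
    {M X : Finset β} (hM : M ∈ cov U) (hMX : M ⊂ X) : X ∈ U := by
  rw [mem_cov] at hM
  have hX : X ∉ low U := by
    intro h
    exact hMX.ne (hM.2 X h hMX.1).symm
  rw [mem_low] at hX
  push Not at hX
  obtain ⟨A, hA, hAX⟩ := hX
  exact hU A hA X hAX.1

end cover

section fibre

variable {t m : ℕ} (G : ℕ → ℕ → ℕ → Finset (Fin t))

open Classical in
/-- The up-set of the edge `(x, x + 1)`. -/
noncomputable def upx (m : ℕ) (x : ℕ) : Finset (Finset (Fin t)) :=
  univ.filter (fun S => ∃ d, x + 1 < d ∧ d < m ∧ G x (x + 1) d ⊆ S)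

theorem mem_upx {x : ℕ} {S : Finset (Fin t)} :
    S ∈ upx G m x ↔ ∃ d, x + 1 < d ∧ d < m ∧ G x (x + 1) d ⊆ S := by
  unfold upx
  simp

theorem upx_up (x : ℕ) : ∀ A ∈ upx G m x, ∀ B, A ⊆ B → B ∈ upx G m x := by
  intro A hA B hAB
  rw [mem_upx] at hA ⊢
  obtain ⟨d, h1, h2, h3⟩ := hA
  exact ⟨d, h1, h2, h3.trans hAB⟩

variable (hmono : ∀ x y y' z, y ≤ y' → G x y z ⊆ G x y' z)
  (hcross : ∀ a b c d, a < b → b < c → c < d → d < m → ¬ (G b c d ⊆ G a b c))

include hmono hcross

theorem mem_cover {a b c : ℕ} (hab : a < b) (hbc : b ≤ c) (hc : c + 1 < m)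
    (heq : cov (upx G m a) = cov (upx G m c)) : G a b (c + 1) ∈ cov (upx G m a) := by
  have h1 : G a b (c + 1) ∈ upx G m a := by
    rw [mem_upx]
    exact ⟨c + 1, by omega, hc, hmono a (a + 1) b (c + 1) (by omega)⟩
  have h2 : G a b (c + 1) ∉ upx G m c := by
    rw [mem_upx]
    rintro ⟨d, hd1, hd2, hd3⟩
    exact hcross a c (c + 1) d (by omega) (by omega) hd1 hd2
      (hd3.trans (hmono a b c (c + 1) hbc))
  obtain ⟨M, hM, hMX⟩ := exists_cov_below h1
  by_cases he : M = G a b (c + 1)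
  · rw [← he]; exact hM
  · exfalso
    rw [heq] at hM
    exact h2 (mem_of_cov_ssubset (upx_up G c) hM (hMX.ssubset_of_ne he))

theorem cover_const {a b b' c : ℕ} (hab : a < b) (hbb : b ≤ b') (hbc : b' ≤ c) (hc : c + 1 < m)
    (heq : cov (upx G m a) = cov (upx G m c)) : G a b (c + 1) = G a b' (c + 1) := by
  have h1 := mem_cover G hmono hcross hab (hbb.trans hbc) hc heq
  have h2 := mem_cover G hmono hcross (lt_of_lt_of_le hab hbb) hbc hc heq
  have h3 := (mem_mis cmp).1 (cov_mem_mis (upx G m a))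
  exact h3.2.1 _ h1 _ h2 (Or.inl (hmono a b b' (c + 1) hbb))

theorem cover_distinct {a b c d : ℕ} (hab : a < b) (hbc : b ≤ c) (hcd : c < d) (hd : d + 1 < m)
    (h1 : cov (upx G m a) = cov (upx G m c)) (h2 : cov (upx G m b) = cov (upx G m d)) :
    G a (a + 1) (c + 1) ≠ G b (b + 1) (d + 1) := by
  intro h
  have e1 := cover_const G hmono hcross (a := a) (b := a + 1) (b' := b) (c := c) (by omega)
    (by omega) hbc (by omega) h1
  have e2 := cover_const G hmono hcross (a := b) (b := b + 1) (b' := c + 1) (c := d) (by omega)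
    (by omega) (by omega) hd h2
  rw [e1, e2] at h
  exact hcross a b (c + 1) (d + 1) hab (by omega) (by omega) hd (h ▸ Subset.refl _)

open Classical in
theorem fibre_card (𝒜 : Finset (Finset (Fin t)))
    (h𝒜 : 𝒜 ∈ mis cmp (univ : Finset (Finset (Fin t)))) :
    ((range (m - 1)).filter (fun x => cov (upx G m x) = 𝒜)).card ≤ 2 * 𝒜.card := by
  set s := (range (m - 1)).filter (fun x => cov (upx G m x) = 𝒜) with hs
  by_contra hlt
  push Not at hlt
  obtain ⟨h, hh⟩ : ∃ h, 𝒜.card = h := ⟨_, rfl⟩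
  have hpos : 1 ≤ h := by
    obtain ⟨A, hA, -⟩ := ((mem_mis cmp).1 h𝒜).2.2 ∅ (mem_univ _)
    rw [← hh]
    exact card_pos.2 ⟨A, hA⟩
  rw [hh] at hlt
  let e := s.orderEmbOfFin rfl
  let q : ℕ → ℕ := fun i => if hi : i < s.card then e ⟨i, hi⟩ else 0
  have q_mem : ∀ i, i < s.card → q i ∈ s := by
    intro i hi
    simp only [q, dif_pos hi]
    exact orderEmbOfFin_mem s rfl _
  have q_lt : ∀ i j, i < j → j < s.card → q i < q j := by
    intro i j hij hj
    have hi : i < s.card := by omega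
    simp only [q, dif_pos hi, dif_pos hj]
    exact e.strictMono hij
  have q_le : ∀ i j, i ≤ j → j < s.card → q i ≤ q j := by
    intro i j hij hj
    rcases Nat.lt_or_ge i j with h1 | h1
    · exact (q_lt i j h1 hj).le
    · have : i = j := by omega
      rw [this]
  have q_cov : ∀ i, i < s.card → cov (upx G m (q i)) = 𝒜 := fun i hi =>
    (mem_filter.1 (q_mem i hi)).2
  have q_bd : ∀ i, i < s.card → q i + 1 < m := by
    intro i hi
    have := mem_range.1 (mem_filter.1 (q_mem i hi)).1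
    omega
  have hcard : (range (h + 1)).card ≤ 𝒜.card := by
    refine card_le_card_of_injOn (fun i => G (q i) (q i + 1) (q (i + h) + 1)) ?_ ?_
    · intro i hi
      have hi' := mem_range.1 (mem_coe.1 hi)
      have h1 := mem_cover G hmono hcross (a := q i) (b := q i + 1) (c := q (i + h))
        (by omega) (q_lt i (i + h) (by omega) (by omega)) (q_bd _ (by omega))
        (by rw [q_cov i (by omega), q_cov (i + h) (by omega)])
      rw [q_cov i (by omega)] at h1
      exact mem_coe.2 h1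
    · have key : ∀ i j, i < j → j ≤ h →
          G (q i) (q i + 1) (q (i + h) + 1) ≠ G (q j) (q j + 1) (q (j + h) + 1) := by
        intro i j hij hj
        exact cover_distinct G hmono hcross (q_lt i j hij (by omega))
          (q_le j (i + h) (by omega) (by omega)) (q_lt (i + h) (j + h) (by omega) (by omega))
          (q_bd _ (by omega))
          (by rw [q_cov i (by omega), q_cov (i + h) (by omega)])
          (by rw [q_cov j (by omega), q_cov (j + h) (by omega)])
      intro i hi j hj hij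
      have hi' := mem_range.1 (mem_coe.1 hi)
      have hj' := mem_range.1 (mem_coe.1 hj)
      rcases lt_trichotomy i j with h1 | h1 | h1
      · exact absurd hij (key i j h1 (by omega))
      · exact h1
      · exact absurd hij.symm (key j i h1 (by omega))
  rw [card_range, hh] at hcard
  omega

open Classical in
theorem vertices_le :
    m ≤ 2 ^ (t + 1) * (mis cmp (univ : Finset (Finset (Fin t)))).card + 1 := by
  have h1 : (range (m - 1)).card ≤ 2 ^ (t + 1) *
      ((range (m - 1)).image (fun x => cov (upx G m x))).card := by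
    refine card_le_mul_card_image (range (m - 1)) (2 ^ (t + 1)) ?_
    intro 𝒜 h𝒜
    obtain ⟨x, -, rfl⟩ := mem_image.1 h𝒜
    refine (fibre_card G hmono hcross _ (cov_mem_mis _)).trans ?_
    have h2 : (cov (upx G m x)).card ≤ 2 ^ t := by
      refine (card_le_univ _).trans ?_
      simp
    calc 2 * (cov (upx G m x)).card ≤ 2 * 2 ^ t := Nat.mul_le_mul_left 2 h2
      _ = 2 ^ (t + 1) := by ring
  have h3 : ((range (m - 1)).image (fun x => cov (upx G m x))).card ≤
      (mis cmp (univ : Finset (Finset (Fin t)))).card := by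
    refine card_le_card ?_
    intro 𝒜 h𝒜
    obtain ⟨x, -, rfl⟩ := mem_image.1 h𝒜
    exact cov_mem_mis _
  rw [card_range] at h1
  have h4 := h1.trans (Nat.mul_le_mul_left _ h3)
  omega

end fibre

section colouring

/-- Colours as elements of `Fin t`. -/
def toFin (t : ℕ) (ht : 1 ≤ t) (k : ℕ) : Fin t := ⟨(k - 1) % t, Nat.mod_lt _ (by omega)⟩

theorem toFin_inj {t : ℕ} (ht : 1 ≤ t) {k l : ℕ} (hk : 1 ≤ k) (hk' : k ≤ t) (hl : 1 ≤ l)
    (hl' : l ≤ t) (h : toFin t ht k = toFin t ht l) : k = l := by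
  have h1 := congrArg Fin.val h
  simp only [toFin] at h1
  rw [Nat.mod_eq_of_lt (by omega), Nat.mod_eq_of_lt (by omega)] at h1
  omega

/-- The sets `G x y z`. -/
def colG (t : ℕ) (ht : 1 ≤ t) (c : Finset ℕ → ℕ) (x y z : ℕ) : Finset (Fin t) :=
  ((range x) ×ˢ (Ioc x y)).image
    (fun p => toFin t ht (c {2 * p.1 + 2, 2 * x + 2, 2 * p.2 + 1, 2 * z + 1}))

theorem colG_mono (t : ℕ) (ht : 1 ≤ t) (c : Finset ℕ → ℕ) (x y y' z : ℕ) (h : y ≤ y') :
    colG t ht c x y z ⊆ colG t ht c x y' z := by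
  unfold colG
  refine image_subset_image ?_
  intro p hp
  rw [mem_product, mem_range, mem_Ioc] at hp ⊢
  exact ⟨hp.1, hp.2.1, hp.2.2.trans h⟩

theorem colG_cross {t m : ℕ} (ht : 1 ≤ t) {col : Finset ℕ → ℕ}
    (hc : IsColouring (2 * m) t col) (hp : ¬ HasPattern (2 * m) col) (a b c d : ℕ) (hab : a < b)
    (hbc : b < c) (hcd : c < d) (hd : d < m) :
    ¬ (colG t ht col b c d ⊆ colG t ht col a b c) := by
  intro hsub
  have h1 : toFin t ht (col {2 * a + 2, 2 * b + 2, 2 * c + 1, 2 * d + 1}) ∈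
      colG t ht col b c d := by
    unfold colG
    refine mem_image.2 ⟨(a, c), ?_, rfl⟩
    rw [mem_product, mem_range, mem_Ioc]
    exact ⟨hab, hbc, le_refl _⟩
  have h2 := hsub h1
  unfold colG at h2
  obtain ⟨⟨a', y'⟩, hp1, hp2⟩ := mem_image.1 h2
  rw [mem_product, mem_range, mem_Ioc] at hp1
  simp only at hp1 hp2
  obtain ⟨ha', hy1, hy2⟩ := hp1
  have r1 := colour_range hc (a := 2 * a' + 2) (b := 2 * a + 2) (c := 2 * y' + 1)
    (d := 2 * c + 1) (by omega) (by omega) (by omega) (by omega) (by omega)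
  have r2 := colour_range hc (a := 2 * a + 2) (b := 2 * b + 2) (c := 2 * c + 1)
    (d := 2 * d + 1) (by omega) (by omega) (by omega) (by omega) (by omega)
  have heq := toFin_inj ht r1.1 r1.2 r2.1 r2.2 hp2
  exact hp ⟨2 * a' + 2, 2 * a + 2, 2 * y' + 1, 2 * b + 2, 2 * c + 1, 2 * d + 1, by omega,
    by omega, by omega, by omega, by omega, by omega, by omega, heq⟩

/-- The number of maximal antichains of the Boolean lattice `2 ^ {0, …, t - 1}`. -/
noncomputable def maCount (t : ℕ) : ℕ := (mis cmp (univ : Finset (Finset (Fin t)))).card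

theorem maCount_pos (t : ℕ) : 1 ≤ maCount t := by
  unfold maCount
  exact card_pos.2 ⟨_, cov_mem_mis ∅⟩

theorem upper_good (t : ℕ) (ht : 1 ≤ t) : 2 ^ (t + 2) * maCount t + 4 ∈ GoodSet t := by
  refine ⟨by omega, ?_⟩
  intro c hc
  by_contra hp
  have h : 2 ^ (t + 2) * maCount t + 4 = 2 * (2 ^ (t + 1) * maCount t + 2) := by ring
  rw [h] at hc hp
  have h1 := vertices_le (m := 2 ^ (t + 1) * maCount t + 2) (colG t ht c)
    (fun x y y' z hy => colG_mono t ht c x y y' z hy)
    (fun a b c' d h1 h2 h3 h4 => colG_cross ht hc hp a b c' d h1 h2 h3 h4)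
  unfold maCount at h1
  omega

theorem nt_le (t : ℕ) (ht : 1 ≤ t) : nt t ≤ 2 ^ (t + 3) * maCount t := by
  have h1 : nt t ≤ 2 ^ (t + 2) * maCount t + 4 := Nat.sInf_le (upper_good t ht)
  have h2 := maCount_pos t
  have h3 : 4 ≤ 2 ^ (t + 2) := by
    calc 4 = 2 ^ 2 := by norm_num
      _ ≤ 2 ^ (t + 2) := Nat.pow_le_pow_right (by norm_num) (by omega)
  have h4 : 2 ^ (t + 3) * maCount t = 2 ^ (t + 2) * maCount t + 2 ^ (t + 2) * maCount t := by
    ring
  have h5 : 2 ^ (t + 2) * 1 ≤ 2 ^ (t + 2) * maCount t := Nat.mul_le_mul_left _ h2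
  omega

end colouring

end Pool.Agent.Helper691.Pattern6Cover
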