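import Mathlib

/-!
# A robust form of the Lubell-Yamamoto-Meshalkin inequality
-/

set_option linter.unusedSectionVars false
set_option linter.unusedVariables false

namespace Pool.Agent.Helper691.RobustLYM

open Finset

variable {t : ℕ}

/-- The expected number of members of `D` on a random maximal chain going up from `X`. -/
noncomputable def hgt (D : Finset (Finset (Fin t))) (X : Finset (Fin t)) : ℝ :=
  ∑ Y ∈ D.filter (fun Y => X ⊆ Y), (((t - X.card).choose (Y.card - X.card) : ℕ) : ℝ)⁻¹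

theorem card_le_t (X : Finset (Fin t)) : X.card ≤ t := by
  simpa using X.card_le_univ

theorem choose_ratio (a b : ℕ) (hb : b ≤ a) :
    ((a : ℝ) + 1) * (((a + 1).choose (b + 1) : ℕ) : ℝ)⁻¹ =
      ((b : ℝ) + 1) * ((a.choose b : ℕ) : ℝ)⁻¹ := by
  have h := Nat.add_one_mul_choose_eq a b
  have h1 : (0 : ℝ) < ((a + 1).choose (b + 1) : ℕ) := by
    exact_mod_cast Nat.choose_pos (by omega)
  have h2 : (0 : ℝ) < (a.choose b : ℕ) := by
    exact_mod_cast Nat.choose_pos hb
  have h3 : ((a : ℝ) + 1) * (a.choose b : ℕ) = ((a + 1).choose (b + 1) : ℕ) * ((b : ℝ) + 1) := by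
    exact_mod_cast h
  field_simp
  linarith

theorem hgt_rec (D : Finset (Finset (Fin t))) (X : Finset (Fin t)) (hX : X ∉ D)
    (hXt : X.card < t) :
    ((t - X.card : ℕ) : ℝ) * hgt D X = ∑ i ∈ Xᶜ, hgt D (insert i X) := by
  have h1 : ∑ i ∈ Xᶜ, hgt D (insert i X) =
      ∑ i ∈ Xᶜ, ∑ Y ∈ (D.filter (fun Y => X ⊆ Y)).filter (fun Y => i ∈ Y),
        (((t - (X.card + 1)).choose (Y.card - (X.card + 1)) : ℕ) : ℝ)⁻¹ := by
    refine sum_congr rfl ?_
    intro i hi
    unfold hgt
    have hiX : i ∉ X := by simpa using hi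
    rw [card_insert_of_notMem hiX]
    refine sum_congr ?_ (fun _ _ => rfl)
    ext Y
    simp only [mem_filter, insert_subset_iff]
    tauto
  have h2 : ∑ i ∈ Xᶜ, ∑ Y ∈ (D.filter (fun Y => X ⊆ Y)).filter (fun Y => i ∈ Y),
        (((t - (X.card + 1)).choose (Y.card - (X.card + 1)) : ℕ) : ℝ)⁻¹ =
      ∑ Y ∈ D.filter (fun Y => X ⊆ Y), ∑ i ∈ Y \ X,
        (((t - (X.card + 1)).choose (Y.card - (X.card + 1)) : ℕ) : ℝ)⁻¹ := by
    refine sum_comm' ?_
    intro i Y
    simp only [mem_filter, mem_compl, mem_sdiff]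
    tauto
  rw [h1, h2]
  unfold hgt
  rw [mul_sum]
  refine sum_congr rfl ?_
  intro Y hY
  rw [mem_filter] at hY
  have hne : X ≠ Y := by
    rintro rfl
    exact hX hY.1
  have hlt : X.card < Y.card := card_lt_card (hY.2.ssubset_of_ne hne)
  have hYt := card_le_t Y
  rw [sum_const, card_sdiff_of_subset hY.2, nsmul_eq_mul]
  obtain ⟨a, ha⟩ : ∃ a, t - X.card = a + 1 := ⟨t - X.card - 1, by omega⟩
  obtain ⟨b, hb⟩ : ∃ b, Y.card - X.card = b + 1 := ⟨Y.card - X.card - 1, by omega⟩
  have ha' : t - (X.card + 1) = a := by omega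
  have hb' : Y.card - (X.card + 1) = b := by omega
  rw [ha, hb, ha', hb']
  push_cast
  exact choose_ratio a b (by omega)

theorem hgt_le (D : Finset (Finset (Fin t))) (g : ℝ) (hg0 : 0 ≤ g)
    (hg : ∀ X ∈ D, ∑ Y ∈ D.filter (fun Y => X ⊂ Y),
      (((t - X.card).choose (Y.card - X.card) : ℕ) : ℝ)⁻¹ ≤ g) :
    ∀ (k : ℕ) (X : Finset (Fin t)), t - X.card = k → hgt D X ≤ 1 + g := by
  intro k
  induction k with
  | zero =>
    intro X hk
    have hXt := card_le_t X
    have hXc : X.card = t := by omega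
    have hXu : X = univ := by
      rw [← card_eq_iff_eq_univ]
      simpa using hXc
    by_cases hX : X ∈ D
    · have : D.filter (fun Y => X ⊆ Y) = {X} := by
        ext Y
        simp only [mem_filter, mem_singleton]
        constructor
        · rintro ⟨_, h⟩
          rw [hXu] at h ⊢
          exact univ_subset_iff.1 h
        · rintro rfl
          exact ⟨hX, Subset.refl _⟩
      unfold hgt
      rw [this, sum_singleton]
      simp
      linarith
    · have : D.filter (fun Y => X ⊆ Y) = ∅ := by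
        ext Y
        simp only [mem_filter, notMem_empty, iff_false, not_and]
        intro hY h
        rw [hXu] at h
        have h' := univ_subset_iff.1 h
        rw [h', ← hXu] at hY
        exact hX hY
      unfold hgt
      rw [this, sum_empty]
      linarith
  | succ k ih =>
    intro X hk
    have hXt := card_le_t X
    by_cases hX : X ∈ D
    · have : D.filter (fun Y => X ⊆ Y) = insert X (D.filter (fun Y => X ⊂ Y)) := by
        ext Y
        simp only [mem_filter, mem_insert]
        constructor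
        · rintro ⟨hY, h⟩
          by_cases he : Y = X
          · exact Or.inl he
          · exact Or.inr ⟨hY, h.ssubset_of_ne (Ne.symm he)⟩
        · rintro (rfl | ⟨hY, h⟩)
          · exact ⟨hX, Subset.refl _⟩
          · exact ⟨hY, h.1⟩
      unfold hgt
      rw [this, sum_insert (by simp)]
      have := hg X hX
      simp only [Nat.sub_self, Nat.choose_zero_right, Nat.cast_one, inv_one]
      linarith
    · have hlt : X.card < t := by omega
      have hrec := hgt_rec D X hX hlt
      have hsum : ∑ i ∈ Xᶜ, hgt D (insert i X) ≤ ∑ i ∈ Xᶜ, (1 + g) := by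
        refine sum_le_sum ?_
        intro i hi
        have hiX : i ∉ X := by simpa using hi
        refine ih (insert i X) ?_
        rw [card_insert_of_notMem hiX]
        omega
      rw [sum_const, nsmul_eq_mul, card_compl, Fintype.card_fin] at hsum
      rw [← hrec] at hsum
      have hpos : (0 : ℝ) < ((t - X.card : ℕ) : ℝ) := by
        exact_mod_cast (by omega : 0 < t - X.card)
      exact le_of_mul_le_mul_left hsum hpos

/-- Robust form of LYM. -/
theorem card_le_of_local (D : Finset (Finset (Fin t))) (g : ℝ) (hg0 : 0 ≤ g)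
    (hg : ∀ X ∈ D, ∑ Y ∈ D.filter (fun Y => X ⊂ Y),
      (((t - X.card).choose (Y.card - X.card) : ℕ) : ℝ)⁻¹ ≤ g) :
    (D.card : ℝ) ≤ (1 + g) * (t.choose (t / 2) : ℕ) := by
  have h := hgt_le D g hg0 hg (t - (∅ : Finset (Fin t)).card) ∅ rfl
  unfold hgt at h
  have hN : (0 : ℝ) < (t.choose (t / 2) : ℕ) := by
    exact_mod_cast Nat.choose_pos (Nat.div_le_self t 2)
  have h2 : ∑ Y ∈ D.filter (fun Y => ∅ ⊆ Y), (((t.choose (t / 2) : ℕ) : ℝ))⁻¹ ≤
      ∑ Y ∈ D.filter (fun Y => ∅ ⊆ Y),
        (((t - (∅ : Finset (Fin t)).card).choose (Y.card - (∅ : Finset (Fin t)).card) : ℕ) : ℝ)⁻¹ := by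
    refine sum_le_sum ?_
    intro Y _
    simp only [card_empty, Nat.sub_zero]
    refine inv_anti₀ ?_ ?_
    · exact_mod_cast Nat.choose_pos (card_le_t Y)
    · exact_mod_cast Nat.choose_le_middle _ _
  have h3 : D.filter (fun Y => ∅ ⊆ Y) = D := by
    ext Y
    simp
  rw [h3] at h2 h
  rw [sum_const, nsmul_eq_mul] at h2
  have h4 : (D.card : ℝ) * ((t.choose (t / 2) : ℕ) : ℝ)⁻¹ ≤ 1 + g := h2.trans h
  rw [← div_eq_mul_inv, div_le_iff₀ hN] at h4
  exact h4

theorem self_le_choose : ∀ (a b : ℕ), 1 ≤ b → b + 1 ≤ a → a ≤ a.choose b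
  | 0, b, _, h => by omega
  | a + 1, 0, h, _ => by omega
  | a + 1, b + 1, _, h => by
    rw [Nat.choose_succ_succ']
    rcases Nat.lt_or_ge (b + 1 + 1) (a + 1) with h1 | h1
    · have h2 := self_le_choose a (b + 1) (by omega) (by omega)
      have h3 : 0 < a.choose b := Nat.choose_pos (by omega)
      omega
    · have hab : a = b + 1 := by omega
      subst hab
      rw [Nat.choose_self, Nat.choose_succ_self_right]

/-- Families whose members lie in the lower three quarters and have few members above them. -/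
theorem card_le_of_degree (ht : 1 ≤ t) (D : Finset (Finset (Fin t))) (k : ℕ)
    (hlow : ∀ X ∈ D, 4 * X.card ≤ 3 * t)
    (hdeg : ∀ X ∈ D, (D.filter (fun Y => X ⊂ Y)).card ≤ k) :
    (D.card : ℝ) ≤ (1 + 4 * k / t) * (t.choose (t / 2) : ℕ) := by
  have htp : (0 : ℝ) < t := by exact_mod_cast ht
  refine card_le_of_local D (4 * k / t) (by positivity) ?_
  intro X hX
  have hX4 := hlow X hX
  have hterm : ∀ Y ∈ D.filter (fun Y => X ⊂ Y),
      (((t - X.card).choose (Y.card - X.card) : ℕ) : ℝ)⁻¹ ≤ 4 / t := by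
    intro Y hY
    rw [mem_filter] at hY
    have hY4 := hlow Y hY.1
    have hlt := card_lt_card hY.2
    have h1 := self_le_choose (t - X.card) (Y.card - X.card) (by omega) (by omega)
    have h2 : (t : ℝ) / 4 ≤ (((t - X.card).choose (Y.card - X.card) : ℕ) : ℝ) := by
      have h3 : (t : ℝ) ≤ 4 * ((t - X.card : ℕ) : ℝ) := by
        exact_mod_cast (by omega : t ≤ 4 * (t - X.card))
      have h4 : ((t - X.card : ℕ) : ℝ) ≤ (((t - X.card).choose (Y.card - X.card) : ℕ) : ℝ) := by
        exact_mod_cast h1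
      linarith
    have h5 : (4 : ℝ) / (t : ℝ) = ((t : ℝ) / 4)⁻¹ := by
      rw [inv_div]
    rw [h5]
    exact inv_anti₀ (by positivity) h2
  calc ∑ Y ∈ D.filter (fun Y => X ⊂ Y), (((t - X.card).choose (Y.card - X.card) : ℕ) : ℝ)⁻¹
      ≤ ∑ Y ∈ D.filter (fun Y => X ⊂ Y), (4 : ℝ) / t := sum_le_sum hterm
    _ = (D.filter (fun Y => X ⊂ Y)).card * (4 / t) := by rw [sum_const, nsmul_eq_mul]
    _ ≤ k * (4 / t) := by
        refine mul_le_mul_of_nonneg_right ?_ (by positivity)
        exact_mod_cast hdeg X hX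
    _ = 4 * k / t := by ring

end Pool.Agent.Helper691.RobustLYM
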