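import Mathlib
import Pool.Agent.Helper691.MaxAC
import Pool.Agent.Helper691.RobustLYM
import Pool.Agent.Helper691.Pattern6Cover

/-!
# The number of maximal antichains of the Boolean lattice: upper bound
-/

set_option linter.unusedSectionVars false
set_option linter.unusedVariables false

namespace Pool.Agent.Helper691.MaCount

open Finset Pool.Agent.Helper691.MaxAC Pool.Agent.Helper691.RobustLYM
  Pool.Agent.Helper691.Pattern6Cover

/-- The number of subsets of `Fin t` with more than `3 t / 4` elements. -/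
def topCount (t : ℕ) : ℕ :=
  ((univ : Finset (Finset (Fin t))).filter (fun X => 3 * t < 4 * X.card)).card

theorem topCount_pow (t : ℕ) : topCount t ^ 4 * 27 ^ t ≤ 256 ^ t := by
  have h1 : ∑ X : Finset (Fin t), 3 ^ X.card = 4 ^ t := by
    have := Fin.sum_pow_mul_eq_add_pow (n := t) (R := ℕ) 3 1
    simpa using this
  set z := 3 ^ (3 * t / 4 + 1) with hz
  have h2 : topCount t * z ≤ 4 ^ t := by
    rw [← h1]
    calc topCount t * z = ∑ X ∈ (univ : Finset (Finset (Fin t))).filter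
          (fun X => 3 * t < 4 * X.card), z := by
          rw [sum_const, smul_eq_mul]
          rfl
      _ ≤ ∑ X ∈ (univ : Finset (Finset (Fin t))).filter
          (fun X => 3 * t < 4 * X.card), 3 ^ X.card := by
          refine sum_le_sum ?_
          intro X hX
          rw [mem_filter] at hX
          exact Nat.pow_le_pow_right (by norm_num) (by omega)
      _ ≤ ∑ X : Finset (Fin t), 3 ^ X.card :=
          sum_le_sum_of_subset (filter_subset _ _)
  have h3 : 27 ^ t ≤ z ^ 4 := by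
    have : (27 : ℕ) = 3 ^ 3 := by norm_num
    rw [hz, this, ← pow_mul, ← pow_mul]
    exact Nat.pow_le_pow_right (by norm_num) (by omega)
  calc topCount t ^ 4 * 27 ^ t ≤ topCount t ^ 4 * z ^ 4 := Nat.mul_le_mul_left _ h3
    _ = (topCount t * z) ^ 4 := by ring
    _ ≤ (4 ^ t) ^ 4 := Nat.pow_le_pow_left h2 4
    _ = 256 ^ t := by
        rw [← pow_mul, mul_comm, pow_mul]
        norm_num

theorem centralBinom_sq (n : ℕ) (hn : 1 ≤ n) : 16 ^ n ≤ 4 * n * n.centralBinom ^ 2 := by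
  induction n with
  | zero => omega
  | succ n ih =>
    rcases Nat.eq_zero_or_pos n with h0 | h0
    · subst h0
      norm_num [Nat.centralBinom, Nat.choose]
    · have h1 := ih h0
      have h2 := Nat.succ_mul_centralBinom_succ n
      have h3 : (n + 1) * (16 ^ (n + 1)) ≤ (n + 1) * (4 * (n + 1) * (n + 1).centralBinom ^ 2) := by
        calc (n + 1) * 16 ^ (n + 1) = 16 * (n + 1) * 16 ^ n := by ring
          _ ≤ 16 * (n + 1) * (4 * n * n.centralBinom ^ 2) := Nat.mul_le_mul_left _ h1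
          _ = 16 * (4 * n * (n + 1)) * n.centralBinom ^ 2 := by ring
          _ ≤ 16 * ((2 * n + 1) ^ 2) * n.centralBinom ^ 2 := by
              refine Nat.mul_le_mul_right _ (Nat.mul_le_mul_left _ ?_)
              nlinarith
          _ = 4 * (2 * (2 * n + 1) * n.centralBinom) ^ 2 := by ring
          _ = 4 * ((n + 1) * (n + 1).centralBinom) ^ 2 := by rw [← h2]
          _ = (n + 1) * (4 * (n + 1) * (n + 1).centralBinom ^ 2) := by ring
      exact Nat.le_of_mul_le_mul_left h3 (by omega)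

theorem middle_sq (t : ℕ) : 4 ^ t ≤ (2 * t + 2) * t.choose (t / 2) ^ 2 := by
  obtain ⟨n, hn | hn⟩ : ∃ n, t = 2 * n ∨ t = 2 * n + 1 := ⟨t / 2, by omega⟩
  · subst hn
    rcases Nat.eq_zero_or_pos n with h0 | h0
    · subst h0
      norm_num
    · have h1 := centralBinom_sq n h0
      rw [Nat.centralBinom_eq_two_mul_choose] at h1
      have h2 : 2 * n / 2 = n := by omega
      rw [h2]
      calc 4 ^ (2 * n) = 16 ^ n := by rw [pow_mul]; norm_num
        _ ≤ 4 * n * (2 * n).choose n ^ 2 := h1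
        _ ≤ (2 * (2 * n) + 2) * (2 * n).choose n ^ 2 := Nat.mul_le_mul_right _ (by omega)
  · subst hn
    have h1 := centralBinom_sq (n + 1) (by omega)
    rw [Nat.centralBinom_eq_two_mul_choose] at h1
    have h2 : (2 * n + 1) / 2 = n := by omega
    rw [h2]
    have h3 : (2 * (n + 1)).choose (n + 1) = 2 * (2 * n + 1).choose n := by
      have : 2 * (n + 1) = (2 * n + 1) + 1 := by ring
      rw [this, Nat.choose_succ_succ', Nat.choose_symm_half]
      ring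
    rw [h3] at h1
    have h4 : 4 * 4 ^ (2 * n + 1) ≤ 4 * ((2 * (2 * n + 1) + 2) * (2 * n + 1).choose n ^ 2) := by
      calc 4 * 4 ^ (2 * n + 1) = 16 ^ (n + 1) := by
            have : 16 ^ (n + 1) = (4 ^ 2) ^ (n + 1) := by norm_num
            rw [this, ← pow_mul, ← pow_succ']
            congr 1
        _ ≤ 4 * (n + 1) * (2 * (2 * n + 1).choose n) ^ 2 := h1
        _ = 4 * ((2 * (2 * n + 1) + 2) * (2 * n + 1).choose n ^ 2) := by ring
    exact Nat.le_of_mul_le_mul_left h4 (by norm_num)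

/-- The branching factor. -/
theorem lam_ineq (r : ℕ) (hr : 1 ≤ r) :
    (1 + 1 / (r : ℝ) ^ 4) ^ (4 * r ^ 5 + 1 - 1) + 1 ≤ (1 + 1 / (r : ℝ) ^ 4) ^ (4 * r ^ 5 + 1) := by
  have hrp : (1 : ℝ) ≤ r := by exact_mod_cast hr
  have hr4 : (0 : ℝ) < (r : ℝ) ^ 4 := by positivity
  have e : 4 * r ^ 5 + 1 - 1 = 4 * r ^ 5 := by omega
  rw [e, pow_succ (1 + 1 / (r : ℝ) ^ 4) (4 * r ^ 5)]
  have h1 : (1 : ℝ) + r ≤ (1 + 1 / (r : ℝ) ^ 4) ^ (r ^ 5) := by
    have h := one_add_mul_le_pow (a := 1 / (r : ℝ) ^ 4)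
      (by have : (0 : ℝ) ≤ 1 / (r : ℝ) ^ 4 := by positivity
          linarith) (r ^ 5)
    have h2 : ((r ^ 5 : ℕ) : ℝ) * (1 / (r : ℝ) ^ 4) = r := by
      push_cast
      field_simp
    linarith
  have h2 : (r : ℝ) ^ 4 ≤ (1 + 1 / (r : ℝ) ^ 4) ^ (4 * r ^ 5) := by
    calc (r : ℝ) ^ 4 ≤ (1 + (r : ℝ)) ^ 4 := by
          refine pow_le_pow_left₀ (by positivity) (by linarith) 4
      _ ≤ ((1 + 1 / (r : ℝ) ^ 4) ^ (r ^ 5)) ^ 4 :=
          pow_le_pow_left₀ (by positivity) h1 4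
      _ = (1 + 1 / (r : ℝ) ^ 4) ^ (4 * r ^ 5) := by rw [← pow_mul, mul_comm]
  have h3 : 1 ≤ (1 + 1 / (r : ℝ) ^ 4) ^ (4 * r ^ 5) * (1 / (r : ℝ) ^ 4) := by
    rw [mul_one_div, le_div_iff₀ hr4]
    linarith
  have h4 : (1 + 1 / (r : ℝ) ^ 4) ^ (4 * r ^ 5) * (1 + 1 / (r : ℝ) ^ 4) =
      (1 + 1 / (r : ℝ) ^ 4) ^ (4 * r ^ 5) +
        (1 + 1 / (r : ℝ) ^ 4) ^ (4 * r ^ 5) * (1 / (r : ℝ) ^ 4) := by
    rw [mul_add, mul_one]
  rw [h4]
  linarith

theorem card_convex_le {t : ℕ} (ht : 1 ≤ t) (k : ℕ) (D : Finset (Finset (Fin t)))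
    (hdeg : ∀ X, Extremal D X → ∀ 𝒮 : Finset (Finset (Fin t)), 𝒮 ⊆ D → (∀ Y ∈ 𝒮, cmp X Y) →
      𝒮.card ≤ k) :
    (D.card : ℝ) ≤ (1 + 4 * k / t) * (t.choose (t / 2) : ℕ) + topCount t := by
  classical
  set D1 := D.filter (fun X => 4 * X.card ≤ 3 * t) with hD1
  set D2 := D.filter (fun X => ¬ 4 * X.card ≤ 3 * t) with hD2
  have hsum : D1.card + D2.card = D.card := card_filter_add_card_filter_not _
  have h2 : D2.card ≤ topCount t := by
    refine card_le_card ?_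
    intro X hX
    rw [hD2, mem_filter] at hX
    rw [mem_filter]
    exact ⟨mem_univ _, by omega⟩
  have h1 : (D1.card : ℝ) ≤ (1 + 4 * k / t) * (t.choose (t / 2) : ℕ) := by
    refine card_le_of_degree ht D1 k ?_ ?_
    · intro X hX
      exact (mem_filter.1 hX).2
    · intro X hX
      have hXD := (mem_filter.1 hX).1
      obtain ⟨X0, hX0, hX0X, hmin⟩ := exists_min_below D hXD
      refine hdeg X0 ⟨hX0, Or.inl hmin⟩ _ ?_ ?_
      · intro Y hY
        exact (mem_filter.1 (mem_filter.1 hY).1).1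
      · intro Y hY
        exact Or.inl (hX0X.trans (mem_filter.1 hY).2.1)
  have h3 : (D.card : ℝ) = D1.card + D2.card := by
    rw [← hsum]
    push_cast
    ring
  have h4 : (D2.card : ℝ) ≤ topCount t := by exact_mod_cast h2
  linarith

theorem maCount_le (t r : ℕ) (ht : 1 ≤ t) (hr : 1 ≤ r) :
    (maCount t : ℝ) ≤ (1 + 1 / (r : ℝ) ^ 4) ^ (2 ^ t) *
      (2 : ℝ) ^ (((1 + 4 * ((4 * r ^ 5 : ℕ) : ℝ) / t) * (t.choose (t / 2) : ℕ) + topCount t) / 2) := by
  classical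
  set M : ℝ := (1 + 4 * ((4 * r ^ 5 : ℕ) : ℝ) / t) * (t.choose (t / 2) : ℕ) + topCount t with hM
  have hlam : (1 : ℝ) ≤ 1 + 1 / (r : ℝ) ^ 4 := by
    have : (0 : ℝ) ≤ 1 / (r : ℝ) ^ 4 := by positivity
    linarith
  have h := card_mis_le_branch (β := Fin t) (4 * r ^ 5 + 1) (by omega) (1 + 1 / (r : ℝ) ^ 4) hlam
    (lam_ineq r hr) ((2 : ℝ) ^ (M / 2)) (by positivity) ?_ (2 ^ t)
    (univ : Finset (Finset (Fin t))) (by simp) (fun X _ Z _ Y _ _ => mem_univ Y)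
  · exact h
  · intro D hD hdeg
    have hc : (D.card : ℝ) ≤ M := by
      refine card_convex_le ht (4 * r ^ 5) D ?_
      intro X hX 𝒮 h𝒮 hcmp
      have h1 : 𝒮 ⊆ D.filter (fun Y => cmp X Y) := by
        intro Y hY
        exact mem_filter.2 ⟨h𝒮 hY, hcmp Y hY⟩
      have h2 := card_le_card h1
      have h3 := hdeg X hX
      have h4 : (D.filter (fun Y => cmp X Y)).card ≤ 4 * r ^ 5 := by
        convert Nat.lt_succ_iff.1 h3 using 2
      omega
    have h5 : ((2 : ℝ) ^ (M / 2)) ^ 2 = (2 : ℝ) ^ M := by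
      rw [← Real.rpow_natCast ((2 : ℝ) ^ (M / 2)) 2, ← Real.rpow_mul (by norm_num)]
      congr 1
      push_cast
      ring
    rw [h5, ← Real.rpow_natCast]
    exact Real.rpow_le_rpow_of_exponent_le (by norm_num) hc

theorem logb_one_add_le (x : ℝ) (hx : 0 ≤ x) : Real.logb 2 (1 + x) ≤ 2 * x := by
  unfold Real.logb
  have h1 : Real.log (1 + x) ≤ x := by
    have := Real.log_le_sub_one_of_pos (show (0 : ℝ) < 1 + x by linarith)
    linarith
  have h2 : (1 : ℝ) / 2 ≤ Real.log 2 := by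
    have := Real.log_two_gt_d9
    linarith
  have h3 : (0 : ℝ) < Real.log 2 := by linarith
  rw [div_le_iff₀ h3]
  nlinarith

theorem logb_maCount_le (t r : ℕ) (ht : 1 ≤ t) (hr : 1 ≤ r) (h1 : r ^ 6 ≤ t)
    (h2 : t < (r + 1) ^ 6) :
    Real.logb 2 (maCount t) ≤ (1 / 2 + 32 / (r : ℝ)) * (t.choose (t / 2) : ℕ) +
      (topCount t : ℝ) / 2 := by
  have hN : (0 : ℝ) < (t.choose (t / 2) : ℕ) := by
    exact_mod_cast Nat.choose_pos (Nat.div_le_self t 2)
  set N : ℝ := ((t.choose (t / 2) : ℕ) : ℝ) with hNdef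
  have hrp : (1 : ℝ) ≤ r := by exact_mod_cast hr
  have hr0 : (0 : ℝ) < r := by linarith
  have htp : (0 : ℝ) < t := by exact_mod_cast ht
  have hma : (0 : ℝ) < maCount t := by exact_mod_cast maCount_pos t
  set M : ℝ := (1 + 4 * ((4 * r ^ 5 : ℕ) : ℝ) / t) * N + topCount t with hM
  have hlam0 : (0 : ℝ) < 1 + 1 / (r : ℝ) ^ 4 := by positivity
  have h3 := maCount_le t r ht hr
  have h4 : Real.logb 2 (maCount t) ≤
      Real.logb 2 ((1 + 1 / (r : ℝ) ^ 4) ^ (2 ^ t) * (2 : ℝ) ^ (M / 2)) :=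
    Real.logb_le_logb_of_le (by norm_num) hma h3
  rw [Real.logb_mul (by positivity) (by positivity), Real.logb_pow,
    Real.logb_rpow (by norm_num) (by norm_num)] at h4
  have h5 := logb_one_add_le (1 / (r : ℝ) ^ 4) (by positivity)
  -- the size of `2 ^ t`
  have h6 : (2 : ℝ) ^ t ≤ 12 * (r : ℝ) ^ 3 * N := by
    have h7 : (4 : ℝ) ^ t ≤ (2 * t + 2) * N ^ 2 := by
      have := middle_sq t
      rw [hNdef]
      exact_mod_cast this
    have h8 : (t : ℝ) + 1 ≤ 64 * (r : ℝ) ^ 6 := by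
      have h9 : t + 1 ≤ (r + 1) ^ 6 := h2
      have h10 : ((t : ℝ) + 1) ≤ ((r : ℝ) + 1) ^ 6 := by exact_mod_cast h9
      calc (t : ℝ) + 1 ≤ ((r : ℝ) + 1) ^ 6 := h10
        _ ≤ (2 * (r : ℝ)) ^ 6 := pow_le_pow_left₀ (by positivity) (by linarith) 6
        _ = 64 * (r : ℝ) ^ 6 := by ring
    have h11 : ((2 : ℝ) ^ t) ^ 2 ≤ (12 * (r : ℝ) ^ 3 * N) ^ 2 := by
      calc ((2 : ℝ) ^ t) ^ 2 = (4 : ℝ) ^ t := by
            rw [← pow_mul, mul_comm, pow_mul]; norm_num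
        _ ≤ (2 * t + 2) * N ^ 2 := h7
        _ ≤ (144 * (r : ℝ) ^ 6) * N ^ 2 := by
            refine mul_le_mul_of_nonneg_right ?_ (by positivity)
            have : (0 : ℝ) ≤ (r : ℝ) ^ 6 := by positivity
            linarith
        _ = (12 * (r : ℝ) ^ 3 * N) ^ 2 := by ring
    exact (pow_le_pow_iff_left₀ (by positivity) (by positivity) (by norm_num)).1 h11
  have h12 : ((2 ^ t : ℕ) : ℝ) * Real.logb 2 (1 + 1 / (r : ℝ) ^ 4) ≤ 24 / (r : ℝ) * N := by
    calc ((2 ^ t : ℕ) : ℝ) * Real.logb 2 (1 + 1 / (r : ℝ) ^ 4)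
        ≤ ((2 ^ t : ℕ) : ℝ) * (2 * (1 / (r : ℝ) ^ 4)) :=
          mul_le_mul_of_nonneg_left h5 (by positivity)
      _ = (2 : ℝ) ^ t * (2 / (r : ℝ) ^ 4) := by push_cast; ring
      _ ≤ (12 * (r : ℝ) ^ 3 * N) * (2 / (r : ℝ) ^ 4) :=
          mul_le_mul_of_nonneg_right h6 (by positivity)
      _ = 24 / (r : ℝ) * N := by field_simp; ring
  have h13 : ((4 * r ^ 5 : ℕ) : ℝ) / t ≤ 4 / r := by
    rw [div_le_div_iff₀ htp hr0]
    have : ((r : ℝ)) ^ 6 ≤ t := by exact_mod_cast h1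
    push_cast
    nlinarith
  have h14 : M / 2 ≤ (1 / 2 + 8 / (r : ℝ)) * N + (topCount t : ℝ) / 2 := by
    have h15 : 4 * ((4 * r ^ 5 : ℕ) : ℝ) / t ≤ 16 / r := by
      have e1 : 4 * ((4 * r ^ 5 : ℕ) : ℝ) / t = 4 * (((4 * r ^ 5 : ℕ) : ℝ) / t) := by ring
      have e2 : (16 : ℝ) / r = 4 * (4 / r) := by ring
      rw [e1, e2]
      linarith
    have h16 : (1 + 4 * ((4 * r ^ 5 : ℕ) : ℝ) / t) * N ≤ (1 + 16 / (r : ℝ)) * N :=
      mul_le_mul_of_nonneg_right (by linarith) hN.le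
    have h17 : (1 + 16 / (r : ℝ)) * N / 2 = (1 / 2 + 8 / (r : ℝ)) * N := by ring
    rw [hM]
    linarith
  have h18 : (1 / 2 + 32 / (r : ℝ)) * N = (1 / 2 + 8 / (r : ℝ)) * N + 24 / (r : ℝ) * N := by ring
  linarith

end Pool.Agent.Helper691.MaCount
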