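import Mathlib
import Pool.Agent.Helper691.MaCount
import Pool.Agent.Helper691.Pattern6Lower
import Pool.Agent.Helper691.Pattern6Upper
import Pool.Agent.Helper691.Pattern6Cover

/-!
# The limit of `log n_t / C(t, ⌊t/2⌋)`
-/

set_option linter.unusedSectionVars false
set_option linter.unusedVariables false

namespace Pool.Agent.Helper691.Pattern6Asymp

open Filter Topology Pool.Agent.Helper691.Pattern6 Pool.Agent.Helper691.Pattern6Lower
  Pool.Agent.Helper691.Pattern6Upper Pool.Agent.Helper691.Pattern6Cover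
  Pool.Agent.Helper691.MaCount

/-- The middle binomial coefficient as a real number. -/
noncomputable def mid (t : ℕ) : ℝ := ((t.choose (t / 2) : ℕ) : ℝ)

theorem mid_pos (t : ℕ) : 0 < mid t := by
  unfold mid
  exact_mod_cast Nat.choose_pos (Nat.div_le_self t 2)

theorem mid_sq (t : ℕ) : (4 : ℝ) ^ t ≤ (2 * t + 2) * mid t ^ 2 := by
  unfold mid
  exact_mod_cast middle_sq t

/-- The sixth root, rounded down. -/
def rt (t : ℕ) : ℕ := Nat.findGreatest (fun r => r ^ 6 ≤ t) t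

theorem rt_spec (t : ℕ) : rt t ^ 6 ≤ t := by
  unfold rt
  exact Nat.findGreatest_spec (P := fun r => r ^ 6 ≤ t) (Nat.zero_le t) (by simp)

theorem lt_rt (t : ℕ) : t < (rt t + 1) ^ 6 := by
  by_contra h
  push Not at h
  have h1 : rt t + 1 ≤ (rt t + 1) ^ 6 := Nat.le_self_pow (by norm_num) _
  exact Nat.findGreatest_is_greatest (P := fun r => r ^ 6 ≤ t) (Nat.lt_succ_self (rt t))
    (h1.trans h) h

theorem le_rt {r t : ℕ} (h : r ^ 6 ≤ t) : r ≤ rt t := by
  unfold rt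
  exact Nat.le_findGreatest ((Nat.le_self_pow (by norm_num) _).trans h) h

theorem tendsto_rt : Tendsto (fun t => (rt t : ℝ)) atTop atTop := by
  refine tendsto_natCast_atTop_atTop.comp ?_
  rw [tendsto_atTop]
  intro b
  filter_upwards [eventually_ge_atTop (b ^ 6)] with t ht
  exact le_rt ht

theorem tendsto_rt_inv : Tendsto (fun t => 32 / (rt t : ℝ)) atTop (𝓝 0) :=
  tendsto_rt.const_div_atTop 32

/-- `(t + 1) ^ k * q ^ t` tends to zero. -/
theorem tendsto_poly (k : ℕ) (q : ℝ) (hq0 : 0 < q) (hq1 : q < 1) :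
    Tendsto (fun t : ℕ => ((t : ℝ) + 1) ^ k * q ^ t) atTop (𝓝 0) := by
  have h := tendsto_pow_const_mul_const_pow_of_lt_one k hq0.le hq1
  have h2 := (tendsto_add_atTop_iff_nat 1).2 h
  have h3 := h2.const_mul q⁻¹
  rw [mul_zero] at h3
  refine h3.congr ?_
  intro t
  push_cast
  rw [pow_succ q t]
  field_simp

theorem tendsto_of_sq {f : ℕ → ℝ} (hf : ∀ t, 0 ≤ f t)
    (h : Tendsto (fun t => f t ^ 2) atTop (𝓝 0)) : Tendsto f atTop (𝓝 0) := by
  have h2 := (Real.continuous_sqrt.tendsto 0).comp h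
  rw [Real.sqrt_zero] at h2
  refine h2.congr ?_
  intro t
  simp only [Function.comp]
  exact Real.sqrt_sq (hf t)

theorem tendsto_top : Tendsto (fun t => (topCount t : ℝ) / mid t) atTop (𝓝 0) := by
  have hnn : ∀ t, 0 ≤ (topCount t : ℝ) / mid t := fun t =>
    div_nonneg (Nat.cast_nonneg _) (mid_pos t).le
  refine tendsto_of_sq hnn (tendsto_of_sq (fun t => by positivity) ?_)
  have hmain := (tendsto_poly 2 (16 / 27) (by norm_num) (by norm_num)).const_mul 4
  rw [mul_zero] at hmain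
  refine squeeze_zero (fun t => by positivity) ?_ hmain
  intro t
  have h1 : (topCount t : ℝ) ^ 4 * 27 ^ t ≤ 256 ^ t := by exact_mod_cast topCount_pow t
  have h2 := mid_sq t
  have hN := mid_pos t
  have h3 : (16 : ℝ) ^ t ≤ (2 * t + 2) ^ 2 * mid t ^ 4 := by
    calc (16 : ℝ) ^ t = ((4 : ℝ) ^ t) ^ 2 := by
          rw [← pow_mul, mul_comm, pow_mul]; norm_num
      _ ≤ ((2 * t + 2) * mid t ^ 2) ^ 2 := pow_le_pow_left₀ (by positivity) h2 2
      _ = (2 * t + 2) ^ 2 * mid t ^ 4 := by ring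
  have h4 : (((topCount t : ℝ) / mid t) ^ 2) ^ 2 = (topCount t : ℝ) ^ 4 / mid t ^ 4 := by
    rw [← pow_mul, div_pow]
  rw [h4, div_le_iff₀ (by positivity)]
  have h5 : (0 : ℝ) < 27 ^ t := by positivity
  have h6 : (256 : ℝ) ^ t = 16 ^ t * 16 ^ t := by
    rw [← mul_pow]; norm_num
  have h7 : ((16 : ℝ) / 27) ^ t = 16 ^ t / 27 ^ t := div_pow _ _ _
  have h8 : (topCount t : ℝ) ^ 4 * 27 ^ t ≤ 16 ^ t * ((2 * t + 2) ^ 2 * mid t ^ 4) := by
    calc (topCount t : ℝ) ^ 4 * 27 ^ t ≤ 256 ^ t := h1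
      _ = 16 ^ t * 16 ^ t := h6
      _ ≤ 16 ^ t * ((2 * t + 2) ^ 2 * mid t ^ 4) :=
          mul_le_mul_of_nonneg_left h3 (by positivity)
  rw [h7]
  have h9 : 4 * (((t : ℝ) + 1) ^ 2 * (16 ^ t / 27 ^ t)) * mid t ^ 4 =
      (16 ^ t * ((2 * t + 2) ^ 2 * mid t ^ 4)) / 27 ^ t := by
    field_simp
    ring
  rw [h9, le_div_iff₀ h5]
  exact h8

theorem tendsto_lin : Tendsto (fun t : ℕ => ((t : ℝ) + 3) / mid t) atTop (𝓝 0) := by
  have hnn : ∀ t : ℕ, 0 ≤ ((t : ℝ) + 3) / mid t := fun t =>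
    div_nonneg (by positivity) (mid_pos t).le
  refine tendsto_of_sq hnn ?_
  have hmain := (tendsto_poly 3 (1 / 4) (by norm_num) (by norm_num)).const_mul 18
  rw [mul_zero] at hmain
  refine squeeze_zero (fun t => by positivity) ?_ hmain
  intro t
  have h2 := mid_sq t
  have hN := mid_pos t
  rw [div_pow, div_le_iff₀ (by positivity)]
  have h5 : (0 : ℝ) < 4 ^ t := by positivity
  have h7 : ((1 : ℝ) / 4) ^ t = 1 / 4 ^ t := by rw [div_pow, one_pow]
  rw [h7]
  have h9 : 18 * (((t : ℝ) + 1) ^ 3 * (1 / 4 ^ t)) * mid t ^ 2 =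
      (9 * ((t : ℝ) + 1) ^ 2 * ((2 * t + 2) * mid t ^ 2)) / 4 ^ t := by
    field_simp
    ring
  rw [h9, le_div_iff₀ h5]
  have h10 : ((t : ℝ) + 3) ^ 2 ≤ 9 * ((t : ℝ) + 1) ^ 2 := by
    have : (0 : ℝ) ≤ t := Nat.cast_nonneg t
    nlinarith
  calc ((t : ℝ) + 3) ^ 2 * 4 ^ t ≤ (9 * ((t : ℝ) + 1) ^ 2) * ((2 * t + 2) * mid t ^ 2) :=
        mul_le_mul h10 h2 (by positivity) (by positivity)
    _ = 9 * ((t : ℝ) + 1) ^ 2 * ((2 * t + 2) * mid t ^ 2) := by ring

theorem choose_half_le (t : ℕ) (ht : 1 ≤ t) :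
    t.choose (t / 2) ≤ 2 * (t - 1).choose ((t - 1) / 2) := by
  obtain ⟨m, rfl⟩ : ∃ m, t = m + 1 := ⟨t - 1, by omega⟩
  simp only [Nat.add_sub_cancel]
  rcases Nat.eq_zero_or_pos ((m + 1) / 2) with h | h
  · rw [h]
    have : 0 < m.choose (m / 2) := Nat.choose_pos (by omega)
    simp
    omega
  · obtain ⟨j, hj⟩ : ∃ j, (m + 1) / 2 = j + 1 := ⟨(m + 1) / 2 - 1, by omega⟩
    rw [hj, Nat.choose_succ_succ']
    have h1 : m.choose j ≤ m.choose (m / 2) := Nat.choose_le_middle j m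
    have h2 : m.choose (j + 1) ≤ m.choose (m / 2) := Nat.choose_le_middle (j + 1) m
    omega

theorem good_nonempty (t : ℕ) : (GoodSet t).Nonempty := ⟨_, upper_mem t⟩

theorem lower_nt (t : ℕ) (ht : 1 ≤ t) : 2 ^ ((t - 1).choose ((t - 1) / 2)) < nt t :=
  lower_mem t ht _ (Nat.sInf_mem (good_nonempty t))

theorem lower_log (t : ℕ) (ht : 1 ≤ t) : 1 / 2 ≤ Real.logb 2 (nt t) / mid t := by
  rw [le_div_iff₀ (mid_pos t)]
  have h1 := lower_nt t ht
  have h2 := choose_half_le t ht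
  set C := (t - 1).choose ((t - 1) / 2) with hC
  have h3 : ((2 : ℝ) ^ C) ≤ nt t := by exact_mod_cast h1.le
  have h4 : (C : ℝ) ≤ Real.logb 2 (nt t) := by
    have := Real.logb_le_logb_of_le (b := 2) (by norm_num) (by positivity) h3
    rwa [Real.logb_pow, Real.logb_self_eq_one (by norm_num), mul_one] at this
  have h5 : mid t ≤ 2 * (C : ℝ) := by
    unfold mid
    exact_mod_cast h2
  linarith

theorem upper_log (t : ℕ) (ht : 1 ≤ t) (hr : 1 ≤ rt t) :
    Real.logb 2 (nt t) / mid t ≤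
      1 / 2 + 32 / (rt t : ℝ) + (topCount t : ℝ) / mid t + ((t : ℝ) + 3) / mid t := by
  have hN := mid_pos t
  have h1 := nt_le t ht
  have hpos : 0 < nt t := lt_of_le_of_lt (Nat.zero_le _) (lower_nt t ht)
  have hma : 0 < maCount t := maCount_pos t
  have h2 : (nt t : ℝ) ≤ (2 : ℝ) ^ (t + 3) * maCount t := by exact_mod_cast h1
  have h3 : Real.logb 2 (nt t) ≤ Real.logb 2 ((2 : ℝ) ^ (t + 3) * maCount t) :=
    Real.logb_le_logb_of_le (by norm_num) (by exact_mod_cast hpos) h2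
  have hma' : (maCount t : ℝ) ≠ 0 := by
    have : (0 : ℝ) < maCount t := by exact_mod_cast hma
    exact this.ne'
  rw [Real.logb_mul (by positivity) hma', Real.logb_pow,
    Real.logb_self_eq_one (by norm_num), mul_one] at h3
  have h4 := logb_maCount_le t (rt t) ht hr (rt_spec t) (lt_rt t)
  have h5 : Real.logb 2 (nt t) ≤ ((t : ℝ) + 3) + ((1 / 2 + 32 / (rt t : ℝ)) * mid t +
      (topCount t : ℝ) / 2) := by
    have : ((t + 3 : ℕ) : ℝ) = (t : ℝ) + 3 := by push_cast; ring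
    rw [this] at h3
    unfold mid
    linarith
  have htop : (0 : ℝ) ≤ topCount t := Nat.cast_nonneg _
  rw [div_le_iff₀ hN]
  have h6 : (1 / 2 + 32 / (rt t : ℝ) + (topCount t : ℝ) / mid t + ((t : ℝ) + 3) / mid t) * mid t =
      (1 / 2 + 32 / (rt t : ℝ)) * mid t + topCount t + ((t : ℝ) + 3) := by
    field_simp
  rw [h6]
  linarith

theorem main_limit :
    Tendsto (fun t : ℕ => Real.logb 2 (nt t) / ((t.choose (t / 2) : ℕ) : ℝ)) atTop
      (𝓝 (1 / 2)) := by
  have hup : Tendsto (fun t : ℕ => 1 / 2 + 32 / (rt t : ℝ) + (topCount t : ℝ) / mid t +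
      ((t : ℝ) + 3) / mid t) atTop (𝓝 (1 / 2)) := by
    have := ((tendsto_const_nhds (x := (1 : ℝ) / 2)).add tendsto_rt_inv).add tendsto_top
    have := this.add tendsto_lin
    simpa using this
  refine tendsto_of_tendsto_of_tendsto_of_le_of_le' (tendsto_const_nhds (x := (1 : ℝ) / 2)) hup
    ?_ ?_
  · filter_upwards [eventually_ge_atTop 1] with t ht
    exact lower_log t ht
  · filter_upwards [eventually_ge_atTop 1] with t ht
    exact upper_log t ht (le_rt (by simpa using ht))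

end Pool.Agent.Helper691.Pattern6Asymp
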